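import Mathlib

open Finset

namespace Pool.Agent.KahnSaks

open scoped Classical in
/-- number of maps `f : α → ℕ` with `f ≤ m` which are monotone on `S` -/
noncomputable def cnt {α : Type*} [Fintype α] [PartialOrder α] (S : Finset α) (m : α → ℕ) : ℕ :=
  ((Fintype.piFinset (fun x => range (m x + 1))).filter
    (fun f => ∀ x ∈ S, ∀ y ∈ S, x ≤ y → f x ≤ f y)).card

open scoped Classical in
/-- cap all values strictly below `z` at `j`, put `0` at `z` -/
noncomputable def cap {α : Type*} [PartialOrder α] (m : α → ℕ) (z : α) (j : ℕ) : α → ℕ :=
  fun x => if x = z then 0 else if x < z then min (m x) j else m x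

/-- merge levels `i - 1` and `i` -/
def psi (i m : ℕ) : ℕ := if i ≤ m then m - 1 else m

variable {α : Type*} [Fintype α] [PartialOrder α]

set_option linter.unusedSectionVars false

lemma cnt_pos (S : Finset α) (m : α → ℕ) : 0 < cnt S m := by
  classical
  unfold cnt
  apply Finset.card_pos.mpr
  refine ⟨fun _ => 0, ?_⟩
  simp

lemma cnt_mono (S : Finset α) {m m' : α → ℕ} (h : ∀ x, m x ≤ m' x) : cnt S m ≤ cnt S m' := by
  classical
  unfold cnt
  apply Finset.card_le_card
  intro f hf
  simp only [mem_filter, Fintype.mem_piFinset, mem_range] at hf ⊢
  exact ⟨fun x => lt_of_lt_of_le (hf.1 x) (by have := h x; omega), hf.2⟩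

lemma cnt_rec (S : Finset α) (m : α → ℕ) (z : α) (hz : z ∈ S) (hmax : ∀ y ∈ S, ¬ z < y)
    (hsupp : ∀ x, x ∉ S → m x = 0) [DecidableEq α] :
    cnt S m = ∑ j ∈ range (m z + 1), cnt (S.erase z) (cap m z j) := by
  classical
  unfold cnt
  rw [Finset.card_eq_sum_card_fiberwise (f := fun f : α → ℕ => f z) (t := range (m z + 1))]
  · apply Finset.sum_congr rfl
    intro j hj
    rw [mem_range] at hj
    refine Finset.card_bij' (fun f _ => Function.update f z 0) (fun g _ => Function.update g z j)
      ?_ ?_ ?_ ?_
    · intro f hf
      simp only [mem_filter, Fintype.mem_piFinset, mem_range] at hf ⊢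
      obtain ⟨⟨hf1, hf2⟩, hf3⟩ := hf
      constructor
      · intro x
        by_cases hx : x = z
        · subst hx; simp [cap]
        · rw [Function.update_of_ne hx]
          simp only [cap, if_neg hx]
          have h1 := hf1 x
          split_ifs with h2
          · by_cases hxS : x ∈ S
            · have := hf2 x hxS z hz h2.le
              rw [hf3] at this
              have : f x ≤ min (m x) j := le_min (by omega) this
              omega
            · have := hsupp x hxS
              rw [this] at h1 ⊢
              simpa using h1
          · exact h1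
      · intro x hx y hy hxy
        have hx' := Finset.mem_erase.mp hx
        have hy' := Finset.mem_erase.mp hy
        rw [Function.update_of_ne hx'.1, Function.update_of_ne hy'.1]
        exact hf2 x hx'.2 y hy'.2 hxy
    · intro g hg
      simp only [mem_filter, Fintype.mem_piFinset, mem_range] at hg ⊢
      obtain ⟨hg1, hg2⟩ := hg
      refine ⟨⟨?_, ?_⟩, ?_⟩
      · intro x
        by_cases hx : x = z
        · subst hx; simpa using hj
        · rw [Function.update_of_ne hx]
          have h1 := hg1 x
          simp only [cap, if_neg hx] at h1
          split_ifs at h1 with h2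
          · have : min (m x) j ≤ m x := min_le_left _ _
            omega
          · exact h1
      · intro x hx y hy hxy
        by_cases hxz : x = z
        · subst hxz
          have : y = x := by
            by_contra hne
            exact hmax y hy (lt_of_le_of_ne hxy (Ne.symm hne))
          subst this
          exact le_refl _
        · by_cases hyz : y = z
          · subst hyz
            rw [Function.update_of_ne hxz, Function.update_self]
            have h1 := hg1 x
            simp only [cap, if_neg hxz, if_pos (lt_of_le_of_ne hxy hxz)] at h1
            have : min (m x) j ≤ j := min_le_right _ _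
            omega
          · rw [Function.update_of_ne hxz, Function.update_of_ne hyz]
            exact hg2 x (Finset.mem_erase.mpr ⟨hxz, hx⟩) y (Finset.mem_erase.mpr ⟨hyz, hy⟩) hxy
      · simp
    · intro f hf
      simp only [mem_filter, Fintype.mem_piFinset, mem_range] at hf
      rw [← hf.2]
      simp
    · intro g hg
      simp only [mem_filter, Fintype.mem_piFinset, mem_range] at hg
      have h1 := hg.1 z
      simp only [cap, if_true] at h1
      have : g z = 0 := by omega
      rw [Function.update_idem, ← this]
      simp
  · intro f hf
    simp only [mem_coe, mem_filter, Fintype.mem_piFinset, mem_range] at hf ⊢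
    exact hf.1 z

lemma psi_zero {i : ℕ} (hi : 1 ≤ i) : psi i 0 = 0 := by
  unfold psi; split_ifs <;> omega

lemma psi_le (i m : ℕ) : psi i m ≤ m := by
  unfold psi; split_ifs <;> omega

lemma psi_mono (i : ℕ) {a b : ℕ} (h : a ≤ b) : psi i a ≤ psi i b := by
  unfold psi; split_ifs <;> omega

lemma psi_min (i a b : ℕ) : psi i (min a b) = min (psi i a) (psi i b) := by
  rcases le_total a b with h | h
  · rw [min_eq_left h, min_eq_left (psi_mono i h)]
  · rw [min_eq_right h, min_eq_right (psi_mono i h)]

lemma low_cap {i : ℕ} (hi : 1 ≤ i) (m : α → ℕ) (z : α) (j : ℕ) :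
    (fun x => psi i (cap m z j x)) = cap (fun x => psi i (m x)) z (psi i j) := by
  classical
  funext x
  simp only [cap]
  split_ifs with h1 h2
  · exact psi_zero hi
  · exact psi_min i _ _
  · rfl

end Pool.Agent.KahnSaks
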