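import Pool.Agent.KahnSaks.Slope

open Finset

namespace Pool.Agent.KahnSaks

variable {α : Type*} [Fintype α] [PartialOrder α]

set_option linter.unusedSectionVars false

lemma cap_le (m : α → ℕ) (z : α) (j : ℕ) (x : α) : cap m z j x ≤ m x := by
  classical
  simp only [cap]
  split_ifs
  · exact Nat.zero_le _
  · exact min_le_left _ _
  · exact le_refl _

lemma cap_supp (S : Finset α) [DecidableEq α] (m : α → ℕ) (z : α) (j : ℕ)
    (hm : ∀ x, x ∉ S → m x = 0) (x : α) (hx : x ∉ S.erase z) : cap m z j x = 0 := by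
  by_cases hxz : x = z
  · simp [cap, hxz]
  · have hxS : x ∉ S := fun h' => hx (Finset.mem_erase.mpr ⟨hxz, h'⟩)
    have h1 := cap_le m z j x
    rw [hm x hxS] at h1
    omega

lemma below_psi (i : ℕ) (hi : 1 ≤ i) (m : α → ℕ) (z : α) (hK : below m z = 0) :
    below (fun x => psi i (m x)) z = 0 := by
  classical
  unfold below at hK ⊢
  rw [Finset.card_eq_zero, Finset.filter_eq_empty_iff] at hK ⊢
  intro x hx hc
  exact hK hx ⟨hc.1, fun h0 => hc.2 (by simp only [h0]; exact psi_zero hi)⟩

lemma exists_max (S : Finset α) (h : S.Nonempty) : ∃ z ∈ S, ∀ y ∈ S, ¬ z < y := by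
  obtain ⟨z, hz⟩ := S.exists_maximal h
  exact ⟨z, hz.prop, fun y hy hlt => absurd (hz.le_of_ge hy hlt.le) (not_le_of_gt hlt)⟩

lemma cnt_empty (m : α → ℕ) (hm : ∀ x, m x = 0) : cnt (∅ : Finset α) m = 1 := by
  classical
  unfold cnt
  rw [Finset.card_eq_one]
  refine ⟨fun _ => 0, ?_⟩
  ext f
  simp only [mem_filter, Fintype.mem_piFinset, mem_range, mem_singleton]
  constructor
  · rintro ⟨h, _⟩
    funext x
    have := h x
    rw [hm x] at this
    omega
  · rintro rfl
    simp

/-- the pinned inequality for three levels -/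
theorem pinned2 : ∀ (n : ℕ) (S : Finset α), S.card = n → ∀ m : α → ℕ, (∀ x, x ∉ S → m x = 0) →
    (∀ x, m x ≤ 2) →
    (cnt S m : ℝ) ^ 2 ≤ ((3 / 2 : ℝ) ^ sp m) ^ 2 *
      ((cnt S (fun x => psi 1 (m x)) : ℝ) * (cnt S (fun x => psi 2 (m x)) : ℝ)) := by
  classical
  intro n
  induction n with
  | zero =>
    intro S hS m hm _
    rw [Finset.card_eq_zero] at hS
    subst hS
    have hm' : ∀ x, m x = 0 := fun x => hm x (by simp)
    rw [cnt_empty m hm', cnt_empty _ (fun x => by rw [hm' x]; exact psi_zero (le_refl 1)),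
      cnt_empty _ (fun x => by rw [hm' x]; exact psi_zero (by norm_num))]
    have : (1 : ℝ) ≤ (3 / 2 : ℝ) ^ sp m := one_le_pow₀ (by norm_num)
    simp only [Nat.cast_one, one_pow, mul_one]
    exact one_le_pow₀ this
  | succ n ih =>
    intro S hS m hm hm2
    obtain ⟨z, hz, hmax⟩ := exists_max S (Finset.card_pos.mp (by omega))
    have hS' : (S.erase z).card = n := by rw [Finset.card_erase_of_mem hz]; omega
    set A : ℕ → ℝ := fun j => (cnt (S.erase z) (cap m z j) : ℝ) with hA
    set X : ℕ → ℝ := fun l => (cnt (S.erase z) (cap (fun x => psi 1 (m x)) z l) : ℝ) with hX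
    set Y : ℕ → ℝ := fun l => (cnt (S.erase z) (cap (fun x => psi 2 (m x)) z l) : ℝ) with hY
    have rA : (cnt S m : ℝ) = ∑ j ∈ range (m z + 1), A j := by
      rw [cnt_rec S m z hz hmax hm]; push_cast; rfl
    have rX : (cnt S (fun x => psi 1 (m x)) : ℝ) = ∑ j ∈ range (psi 1 (m z) + 1), X j := by
      rw [cnt_rec S _ z hz hmax (fun x hx => by simp only [hm x hx]; exact psi_zero (le_refl 1))]
      push_cast; rfl
    have rY : (cnt S (fun x => psi 2 (m x)) : ℝ) = ∑ j ∈ range (psi 2 (m z) + 1), Y j := by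
      rw [cnt_rec S _ z hz hmax (fun x hx => by simp only [hm x hx]; exact psi_zero (by norm_num))]
      push_cast; rfl
    have ihj : ∀ j, (A j) ^ 2 ≤ ((3 / 2 : ℝ) ^ sp (cap m z j)) ^ 2 *
        (X (psi 1 j) * Y (psi 2 j)) := by
      intro j
      have h := ih (S.erase z) hS' (cap m z j) ?_ ?_
      · rw [low_cap (le_refl 1), low_cap (by norm_num : 1 ≤ 2)] at h
        exact h
      · exact cap_supp S m z j hm
      · exact fun x => (cap_le m z j x).trans (hm2 x)
    have hApos : ∀ j, 0 ≤ A j := fun j => Nat.cast_nonneg _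
    have hXpos : ∀ j, 0 < X j := fun j => Nat.cast_pos.mpr (cnt_pos _ _)
    have hYpos : ∀ j, 0 < Y j := fun j => Nat.cast_pos.mpr (cnt_pos _ _)
    have hXm : ∀ j, X j ≤ X (j + 1) := fun j =>
      Nat.cast_le.mpr (cnt_mono _ (fun x => cap_mono_level _ z (Nat.le_succ j) x))
    have hYm : ∀ j, Y j ≤ Y (j + 1) := fun j =>
      Nat.cast_le.mpr (cnt_mono _ (fun x => cap_mono_level _ z (Nat.le_succ j) x))
    by_cases hmz : m z = 0
    · rw [rA, rX, rY, hmz]
      have e1 : psi 1 0 = 0 := rfl
      have e2 : psi 2 0 = 0 := rfl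
      rw [e1, e2]
      simp only [zero_add, Finset.sum_range_one]
      refine (ihj 0).trans ?_
      rw [e1, e2]
      have : sp (cap m z 0) ≤ sp m := sp_cap_of_zero m z 0
      have h1 : (3 / 2 : ℝ) ^ sp (cap m z 0) ≤ (3 / 2 : ℝ) ^ sp m :=
        pow_le_pow_right₀ (by norm_num) this
      have h2 : 0 ≤ X 0 * Y 0 := (mul_pos (hXpos 0) (hYpos 0)).le
      gcongr
    · set C : ℝ := (3 / 2 : ℝ) ^ (sp m - 1) with hC
      have hsp : ∀ j, 1 ≤ j → sp (cap m z j) = sp m - 1 := by
        intro j hj
        have := sp_cap_pos m z hmz j hj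
        omega
      have hsp1 : 1 ≤ sp m := by have := sp_cap_pos m z hmz 1 (le_refl 1); omega
      have hCsp : (3 / 2 : ℝ) ^ sp m = 3 / 2 * C := by
        rw [hC, ← pow_succ']; congr 1; omega
      have hCpos : 0 < C := by positivity
      have hj : ∀ j, 1 ≤ j → (A j) ^ 2 ≤ C ^ 2 * (X (psi 1 j) * Y (psi 2 j)) := by
        intro j hj
        have := ihj j
        rw [hsp j hj] at this
        exact this
      have hm2z := hm2 z
      rcases Nat.eq_zero_or_pos (below m z) with hK | hK
      · -- no element below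
        have hAj : ∀ j, A j = A 0 := by
          intro j; simp only [hA]; rw [cap_eq_of_below_zero m z hK j 0]
        have hb1 := below_psi 1 (le_refl 1) m z hK
        have hb2 := below_psi 2 (by norm_num) m z hK
        have hXj : ∀ j, X j = X 0 := by
          intro j; simp only [hX]; rw [cap_eq_of_below_zero _ z hb1 j 0]
        have hYj : ∀ j, Y j = Y 0 := by
          intro j; simp only [hY]; rw [cap_eq_of_below_zero _ z hb2 j 0]
        have h1 := hj 1 (le_refl 1)
        rw [hAj, hXj, hYj] at h1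
        rw [rA, rX, rY, hCsp]
        have hxy : 0 < X 0 * Y 0 := mul_pos (hXpos 0) (hYpos 0)
        interval_cases h : m z
        · exact absurd rfl hmz
        · have e1 : psi 1 1 = 0 := rfl
          have e2 : psi 2 1 = 1 := rfl
          rw [e1, e2]
          simp only [Finset.sum_range_succ, Finset.sum_range_zero, zero_add, hAj, hXj, hYj]
          nlinarith [mul_pos (pow_pos hCpos 2) hxy]
        · have e1 : psi 1 2 = 1 := rfl
          have e2 : psi 2 2 = 1 := rfl
          rw [e1, e2]
          simp only [Finset.sum_range_succ, Finset.sum_range_zero, zero_add, hAj, hXj, hYj]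
          nlinarith [mul_pos (pow_pos hCpos 2) hxy]
      · -- at least one element below
        have h0 : (A 0) ^ 2 ≤ (2 / 3 * C) ^ 2 * (X 0 * Y 0) := by
          refine (ihj 0).trans ?_
          have e1 : psi 1 0 = 0 := rfl
          have e2 : psi 2 0 = 0 := rfl
          rw [e1, e2]
          have h3 := sp_cap_zero m z hmz
          have h4 : (3 / 2 : ℝ) ^ sp (cap m z 0) ≤ 2 / 3 * C := by
            rw [hC]
            have h5 : sp m - 1 = (sp (cap m z 0) + (below m z - 1)) + 1 := by omega
            rw [h5, pow_succ, pow_add]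
            have h6 : (1 : ℝ) ≤ (3 / 2 : ℝ) ^ (below m z - 1) := one_le_pow₀ (by norm_num)
            have h7 : 0 < (3 / 2 : ℝ) ^ sp (cap m z 0) := by positivity
            nlinarith
          have h2 : 0 ≤ X 0 * Y 0 := (mul_pos (hXpos 0) (hYpos 0)).le
          gcongr
        rw [rA, rX, rY, hCsp]
        interval_cases h : m z
        · exact absurd rfl hmz
        · have e1 : psi 1 1 = 0 := rfl
          have e2 : psi 2 1 = 1 := rfl
          have h1 := hj 1 (le_refl 1)
          rw [e1, e2] at h1 ⊢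
          simp only [Finset.sum_range_succ, Finset.sum_range_zero, zero_add]
          refine step21 hCpos.le (hApos 0) (hApos 1) (hXpos 0) (hYpos 0) (hYm 0) ?_ h1
          refine h0.trans ?_
          have h2 : 0 ≤ X 0 * Y 0 := (mul_pos (hXpos 0) (hYpos 0)).le
          have : 2 / 3 * C ≤ C := by linarith
          gcongr
        · have e1 : psi 1 2 = 1 := rfl
          have e2 : psi 2 2 = 1 := rfl
          have e3 : psi 1 1 = 0 := rfl
          have e4 : psi 2 1 = 1 := rfl
          have h1 := hj 1 (le_refl 1)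
          have h2 := hj 2 (by norm_num)
          rw [e3, e4] at h1
          rw [e1, e2] at h2 ⊢
          simp only [Finset.sum_range_succ, Finset.sum_range_zero, zero_add]
          exact step22 hCpos.le (hApos 0) (hApos 1) (hApos 2) (hXpos 0) (hXm 0) (hYpos 0) (hYm 0)
            h0 h1 h2

end Pool.Agent.KahnSaks
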