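import Pool.Agent.KahnSaks.Pinned2

open Finset

namespace Pool.Agent.KahnSaks

variable {α : Type*} [Fintype α] [PartialOrder α]

set_option linter.unusedSectionVars false

/-- the pinned inequality for four levels -/
theorem pinned3 : ∀ (n : ℕ) (S : Finset α), S.card = n → ∀ m : α → ℕ, (∀ x, x ∉ S → m x = 0) →
    (∀ x, m x ≤ 3) →
    (cnt S m : ℝ) ^ 10 ≤ ((4 / 3 : ℝ) ^ sp m) ^ 10 *
      ((cnt S (fun x => psi 1 (m x)) : ℝ) ^ 4 * (cnt S (fun x => psi 2 (m x)) : ℝ) ^ 3 *
        (cnt S (fun x => psi 3 (m x)) : ℝ) ^ 3) := by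
  classical
  intro n
  induction n with
  | zero =>
    intro S hS m hm _
    rw [Finset.card_eq_zero] at hS
    subst hS
    have hm' : ∀ x, m x = 0 := fun x => hm x (by simp)
    rw [cnt_empty m hm', cnt_empty _ (fun x => by rw [hm' x]; exact psi_zero (le_refl 1)),
      cnt_empty _ (fun x => by rw [hm' x]; exact psi_zero (by norm_num)),
      cnt_empty _ (fun x => by rw [hm' x]; exact psi_zero (by norm_num))]
    have : (1 : ℝ) ≤ (4 / 3 : ℝ) ^ sp m := one_le_pow₀ (by norm_num)
    simp only [Nat.cast_one, one_pow, mul_one]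
    exact one_le_pow₀ this
  | succ n ih =>
    intro S hS m hm hm2
    obtain ⟨z, hz, hmax⟩ := exists_max S (Finset.card_pos.mp (by omega))
    have hS' : (S.erase z).card = n := by rw [Finset.card_erase_of_mem hz]; omega
    set A : ℕ → ℝ := fun j => (cnt (S.erase z) (cap m z j) : ℝ) with hA
    set X : ℕ → ℝ := fun l => (cnt (S.erase z) (cap (fun x => psi 1 (m x)) z l) : ℝ) with hX
    set Y : ℕ → ℝ := fun l => (cnt (S.erase z) (cap (fun x => psi 2 (m x)) z l) : ℝ) with hY
    set Z : ℕ → ℝ := fun l => (cnt (S.erase z) (cap (fun x => psi 3 (m x)) z l) : ℝ) with hZ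
    have rA : (cnt S m : ℝ) = ∑ j ∈ range (m z + 1), A j := by
      rw [cnt_rec S m z hz hmax hm]; push_cast; rfl
    have rX : (cnt S (fun x => psi 1 (m x)) : ℝ) = ∑ j ∈ range (psi 1 (m z) + 1), X j := by
      rw [cnt_rec S _ z hz hmax (fun x hx => by simp only [hm x hx]; exact psi_zero (le_refl 1))]
      push_cast; rfl
    have rY : (cnt S (fun x => psi 2 (m x)) : ℝ) = ∑ j ∈ range (psi 2 (m z) + 1), Y j := by
      rw [cnt_rec S _ z hz hmax (fun x hx => by simp only [hm x hx]; exact psi_zero (by norm_num))]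
      push_cast; rfl
    have rZ : (cnt S (fun x => psi 3 (m x)) : ℝ) = ∑ j ∈ range (psi 3 (m z) + 1), Z j := by
      rw [cnt_rec S _ z hz hmax (fun x hx => by simp only [hm x hx]; exact psi_zero (by norm_num))]
      push_cast; rfl
    have ihj : ∀ j, (A j) ^ 10 ≤ ((4 / 3 : ℝ) ^ sp (cap m z j)) ^ 10 *
        (X (psi 1 j) ^ 4 * Y (psi 2 j) ^ 3 * Z (psi 3 j) ^ 3) := by
      intro j
      have h := ih (S.erase z) hS' (cap m z j) (cap_supp S m z j hm)
        (fun x => (cap_le m z j x).trans (hm2 x))
      rw [low_cap (le_refl 1), low_cap (by norm_num : 1 ≤ 2), low_cap (by norm_num : 1 ≤ 3)] at h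
      exact h
    have hApos : ∀ j, 0 ≤ A j := fun j => Nat.cast_nonneg _
    have hXpos : ∀ j, 0 < X j := fun j => Nat.cast_pos.mpr (cnt_pos _ _)
    have hYpos : ∀ j, 0 < Y j := fun j => Nat.cast_pos.mpr (cnt_pos _ _)
    have hZpos : ∀ j, 0 < Z j := fun j => Nat.cast_pos.mpr (cnt_pos _ _)
    have hXm : ∀ j, X j ≤ X (j + 1) := fun j =>
      Nat.cast_le.mpr (cnt_mono _ (fun x => cap_mono_level _ z (Nat.le_succ j) x))
    have hYm : ∀ j, Y j ≤ Y (j + 1) := fun j =>
      Nat.cast_le.mpr (cnt_mono _ (fun x => cap_mono_level _ z (Nat.le_succ j) x))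
    have hZm : ∀ j, Z j ≤ Z (j + 1) := fun j =>
      Nat.cast_le.mpr (cnt_mono _ (fun x => cap_mono_level _ z (Nat.le_succ j) x))
    have hp0 : 0 ≤ X 0 ^ 4 * Y 0 ^ 3 * Z 0 ^ 3 := by
      have := (hXpos 0).le; have := (hYpos 0).le; have := (hZpos 0).le; positivity
    by_cases hmz : m z = 0
    · rw [rA, rX, rY, rZ, hmz]
      have e1 : psi 1 0 = 0 := rfl
      have e2 : psi 2 0 = 0 := rfl
      have e3 : psi 3 0 = 0 := rfl
      rw [e1, e2, e3]
      simp only [zero_add, Finset.sum_range_one]
      refine (ihj 0).trans ?_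
      rw [e1, e2, e3]
      have : sp (cap m z 0) ≤ sp m := sp_cap_of_zero m z 0
      have h1 : (4 / 3 : ℝ) ^ sp (cap m z 0) ≤ (4 / 3 : ℝ) ^ sp m :=
        pow_le_pow_right₀ (by norm_num) this
      gcongr
    · set C : ℝ := (4 / 3 : ℝ) ^ (sp m - 1) with hC
      have hsp : ∀ j, 1 ≤ j → sp (cap m z j) = sp m - 1 := by
        intro j hj
        have := sp_cap_pos m z hmz j hj
        omega
      have hsp1 : 1 ≤ sp m := by have := sp_cap_pos m z hmz 1 (le_refl 1); omega
      have hCsp : (4 / 3 : ℝ) ^ sp m = 4 / 3 * C := by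
        rw [hC, ← pow_succ']; congr 1; omega
      have hCpos : 0 < C := by positivity
      have hj : ∀ j, 1 ≤ j →
          (A j) ^ 10 ≤ C ^ 10 * (X (psi 1 j) ^ 4 * Y (psi 2 j) ^ 3 * Z (psi 3 j) ^ 3) := by
        intro j hj
        have := ihj j
        rw [hsp j hj] at this
        exact this
      have hm2z := hm2 z
      have e11 : psi 1 1 = 0 := rfl
      have e21 : psi 2 1 = 1 := rfl
      have e31 : psi 3 1 = 1 := rfl
      have e12 : psi 1 2 = 1 := rfl
      have e22 : psi 2 2 = 1 := rfl
      have e32 : psi 3 2 = 2 := rfl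
      have e13 : psi 1 3 = 2 := rfl
      have e23 : psi 2 3 = 2 := rfl
      have e33 : psi 3 3 = 2 := rfl
      rcases Nat.eq_zero_or_pos (below m z) with hK | hK
      · -- no element below
        have hAj : ∀ j, A j = A 0 := by
          intro j; simp only [hA]; rw [cap_eq_of_below_zero m z hK j 0]
        have hb1 := below_psi 1 (le_refl 1) m z hK
        have hb2 := below_psi 2 (by norm_num) m z hK
        have hb3 := below_psi 3 (by norm_num) m z hK
        have hXj : ∀ j, X j = X 0 := by
          intro j; simp only [hX]; rw [cap_eq_of_below_zero _ z hb1 j 0]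
        have hYj : ∀ j, Y j = Y 0 := by
          intro j; simp only [hY]; rw [cap_eq_of_below_zero _ z hb2 j 0]
        have hZj : ∀ j, Z j = Z 0 := by
          intro j; simp only [hZ]; rw [cap_eq_of_below_zero _ z hb3 j 0]
        have h1 := hj 1 (le_refl 1)
        rw [hAj, hXj, hYj, hZj] at h1
        rw [rA, rX, rY, rZ, hCsp]
        have hq : 0 < C ^ 10 * (X 0 ^ 4 * Y 0 ^ 3 * Z 0 ^ 3) := by
          have := hXpos 0; have := hYpos 0; have := hZpos 0; positivity
        have key : ∀ (M a b c : ℝ), 0 ≤ M → 0 ≤ a → 0 ≤ b → 0 ≤ c →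
            M ^ 10 ≤ (4 / 3) ^ 10 * (a ^ 4 * b ^ 3 * c ^ 3) →
            (M * A 0) ^ 10 ≤ (4 / 3 * C) ^ 10 * ((a * X 0) ^ 4 * (b * Y 0) ^ 3 * (c * Z 0) ^ 3) := by
          intro M a b c hM ha hb hc h
          calc (M * A 0) ^ 10 = M ^ 10 * A 0 ^ 10 := by ring
            _ ≤ ((4 / 3) ^ 10 * (a ^ 4 * b ^ 3 * c ^ 3)) *
                (C ^ 10 * (X 0 ^ 4 * Y 0 ^ 3 * Z 0 ^ 3)) := by
                  apply mul_le_mul h h1 (pow_nonneg (hApos 0) 10) (by positivity)
            _ = _ := by ring
        interval_cases h : m z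
        · exact absurd rfl hmz
        · rw [e11, e21, e31]
          simp only [Finset.sum_range_succ, Finset.sum_range_zero, zero_add, hAj, hXj, hYj, hZj]
          have := key 2 1 2 2 (by norm_num) (by norm_num) (by norm_num) (by norm_num) (by norm_num)
          calc (A 0 + A 0) ^ 10 = (2 * A 0) ^ 10 := by ring
            _ ≤ _ := this
            _ = _ := by ring
        · rw [e12, e22, e32]
          simp only [Finset.sum_range_succ, Finset.sum_range_zero, zero_add, hAj, hXj, hYj, hZj]
          have := key 3 2 2 3 (by norm_num) (by norm_num) (by norm_num) (by norm_num) (by norm_num)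
          calc (A 0 + A 0 + A 0) ^ 10 = (3 * A 0) ^ 10 := by ring
            _ ≤ _ := this
            _ = _ := by ring
        · rw [e13, e23, e33]
          simp only [Finset.sum_range_succ, Finset.sum_range_zero, zero_add, hAj, hXj, hYj, hZj]
          have := key 4 3 3 3 (by norm_num) (by norm_num) (by norm_num) (by norm_num) (by norm_num)
          calc (A 0 + A 0 + A 0 + A 0) ^ 10 = (4 * A 0) ^ 10 := by ring
            _ ≤ _ := this
            _ = _ := by ring
      · -- at least one element below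
        have h3 := sp_cap_zero m z hmz
        have h0 : (A 0) ^ 10 ≤ (3 / 4 * C) ^ 10 * (X 0 ^ 4 * Y 0 ^ 3 * Z 0 ^ 3) := by
          refine (ihj 0).trans ?_
          have e1 : psi 1 0 = 0 := rfl
          have e2 : psi 2 0 = 0 := rfl
          have e3 : psi 3 0 = 0 := rfl
          rw [e1, e2, e3]
          have h4 : (4 / 3 : ℝ) ^ sp (cap m z 0) ≤ 3 / 4 * C := by
            rw [hC]
            have h5 : sp m - 1 = (sp (cap m z 0) + (below m z - 1)) + 1 := by omega
            rw [h5, pow_succ, pow_add]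
            have h6 : (1 : ℝ) ≤ (4 / 3 : ℝ) ^ (below m z - 1) := one_le_pow₀ (by norm_num)
            have h7 : 0 < (4 / 3 : ℝ) ^ sp (cap m z 0) := by positivity
            nlinarith
          gcongr
        have h0' : (A 0) ^ 10 ≤ C ^ 10 * (X 0 ^ 4 * Y 0 ^ 3 * Z 0 ^ 3) := by
          refine h0.trans ?_
          have : 3 / 4 * C ≤ C := by linarith
          gcongr
        rw [rA, rX, rY, rZ, hCsp]
        interval_cases h : m z
        · exact absurd rfl hmz
        · have h1 := hj 1 (le_refl 1)
          rw [e11, e21, e31] at h1 ⊢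
          simp only [Finset.sum_range_succ, Finset.sum_range_zero, zero_add]
          exact step30 hCpos.le (hApos 0) (hApos 1) (hXpos 0) (hYpos 0) (hYm 0) (hZpos 0) (hZm 0)
            h0' h1
        · have h1 := hj 1 (le_refl 1)
          have h2 := hj 2 (by norm_num)
          rw [e11, e21, e31] at h1
          rw [e12, e22, e32] at h2 ⊢
          simp only [Finset.sum_range_succ, Finset.sum_range_zero, zero_add]
          exact step32 hCpos.le (hApos 0) (hApos 1) (hApos 2) (hXpos 0) (hXm 0) (hYpos 0) (hYm 0)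
            (hZpos 0) (hZm 0) (hZm 1) h0 h1 h2
        · have h1 := hj 1 (le_refl 1)
          have h2 := hj 2 (by norm_num)
          have h3' := hj 3 (by norm_num)
          rw [e11, e21, e31] at h1
          rw [e12, e22, e32] at h2
          rw [e13, e23, e33] at h3' ⊢
          simp only [Finset.sum_range_succ, Finset.sum_range_zero, zero_add]
          rcases Nat.lt_or_ge (below m z) 2 with hK2 | hK2
          · obtain ⟨y, hyz, hy⟩ := exists_below_one m z (by omega)
            have sl : ∀ (i : ℕ) (hi : 1 ≤ i) (l : ℕ),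
                ((l : ℝ) + 1) * (cnt (S.erase z) (cap (fun x => psi i (m x)) z (l + 1)) : ℝ)
                  ≤ ((l : ℝ) + 2) * (cnt (S.erase z) (cap (fun x => psi i (m x)) z l) : ℝ) := by
              intro i hi l
              have := slope (S.erase z) (fun x => psi i (m x)) y z hyz
                (fun x hx hxy => by simp only [hy x hx hxy]; exact psi_zero hi) l
              exact_mod_cast this
            have sX0 := sl 1 (by norm_num) 0
            have sX1 := sl 1 (by norm_num) 1
            have sY0 := sl 2 (by norm_num) 0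
            have sY1 := sl 2 (by norm_num) 1
            have sZ0 := sl 3 (by norm_num) 0
            have sZ1 := sl 3 (by norm_num) 1
            simp only [Nat.cast_zero, zero_add, one_mul, Nat.cast_one] at sX0 sX1 sY0 sY1 sZ0 sZ1
            exact step31 hCpos.le (hApos 0) (hApos 1) (hApos 2) (hApos 3)
              (hXpos 0) (hXm 0) (hXm 1) sX0 (by simp only [hX]; norm_num at sX1 ⊢; linarith)
              (hYpos 0) (hYm 0) (hYm 1) sY0 (by simp only [hY]; norm_num at sY1 ⊢; linarith)
              (hZpos 0) (hZm 0) (hZm 1) sZ0 (by simp only [hZ]; norm_num at sZ1 ⊢; linarith)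
              h0 h1 h2 h3'
          · have h0'' : (A 0) ^ 10 ≤ (9 / 16 * C) ^ 10 * (X 0 ^ 4 * Y 0 ^ 3 * Z 0 ^ 3) := by
              refine (ihj 0).trans ?_
              have e1 : psi 1 0 = 0 := rfl
              have e2 : psi 2 0 = 0 := rfl
              have e3 : psi 3 0 = 0 := rfl
              rw [e1, e2, e3]
              have h4 : (4 / 3 : ℝ) ^ sp (cap m z 0) ≤ 9 / 16 * C := by
                rw [hC]
                have h5 : sp m - 1 = (sp (cap m z 0) + (below m z - 2)) + 2 := by omega
                rw [h5, pow_add _ _ 2, pow_add]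
                have h6 : (1 : ℝ) ≤ (4 / 3 : ℝ) ^ (below m z - 2) := one_le_pow₀ (by norm_num)
                have h7 : 0 < (4 / 3 : ℝ) ^ sp (cap m z 0) := by positivity
                nlinarith
              gcongr
            exact step33 hCpos.le (hApos 0) (hApos 1) (hApos 2) (hApos 3)
              (hXpos 0) (hXm 0) (hXm 1) (hYpos 0) (hYm 0) (hYm 1) (hZpos 0) (hZm 0) (hZm 1)
              h0'' h1 h2 h3'

end Pool.Agent.KahnSaks
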