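import Mathlib

open Finset

namespace Pool.Agent.KahnSaks

lemma amgm10 {u v w : ℝ} (hu : 0 ≤ u) (hv : 0 ≤ v) (hw : 0 ≤ w) :
    u ^ 4 * v ^ 3 * w ^ 3 ≤ ((4 * u + 3 * v + 3 * w) / 10) ^ 10 := by
  have h := Real.geom_mean_le_arith_mean3_weighted (w₁ := 4 / 10) (w₂ := 3 / 10) (w₃ := 3 / 10)
    (by norm_num) (by norm_num) (by norm_num) hu hv hw (by norm_num)
  have h1 : (u ^ (4 / 10 : ℝ)) ^ 10 = u ^ 4 := by
    rw [← Real.rpow_natCast, ← Real.rpow_mul hu]; norm_num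
  have h2 : ∀ t : ℝ, 0 ≤ t → (t ^ (3 / 10 : ℝ)) ^ 10 = t ^ 3 := by
    intro t ht
    rw [← Real.rpow_natCast, ← Real.rpow_mul ht]; norm_num
  calc u ^ 4 * v ^ 3 * w ^ 3
      = (u ^ (4 / 10 : ℝ) * v ^ (3 / 10 : ℝ) * w ^ (3 / 10 : ℝ)) ^ 10 := by
        rw [mul_pow, mul_pow, h1, h2 v hv, h2 w hw]
    _ ≤ (4 / 10 * u + 3 / 10 * v + 3 / 10 * w) ^ 10 := by
        apply pow_le_pow_left₀ _ h
        positivity
    _ = _ := by ring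

lemma term3 {x y z X Y Z a D G : ℝ} (α β γ : ℝ) (hx : 0 ≤ x) (hy : 0 ≤ y) (hz : 0 ≤ z)
    (hX : 0 < X) (hY : 0 < Y) (hZ : 0 < Z) (hα : 0 < α) (hβ : 0 < β) (hγ : 0 < γ)
    (hp : 1 ≤ α ^ 4 * β ^ 3 * γ ^ 3) (hD : 0 ≤ D) (hG : 0 < G)
    (hG10 : G ^ 10 = X ^ 4 * Y ^ 3 * Z ^ 3) (h : a ^ 10 ≤ D ^ 10 * (x ^ 4 * y ^ 3 * z ^ 3)) :
    a ≤ D * G * ((4 * (α * (x / X)) + 3 * (β * (y / Y)) + 3 * (γ * (z / Z))) / 10) := by
  have hu : 0 ≤ α * (x / X) := by positivity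
  have hv : 0 ≤ β * (y / Y) := by positivity
  have hw : 0 ≤ γ * (z / Z) := by positivity
  have h1 := amgm10 hu hv hw
  have h2 : x ^ 4 * y ^ 3 * z ^ 3 ≤ G ^ 10 *
      ((4 * (α * (x / X)) + 3 * (β * (y / Y)) + 3 * (γ * (z / Z))) / 10) ^ 10 := by
    have e : (α * (x / X)) ^ 4 * (β * (y / Y)) ^ 3 * (γ * (z / Z)) ^ 3 * G ^ 10
        = (α ^ 4 * β ^ 3 * γ ^ 3) * (x ^ 4 * y ^ 3 * z ^ 3) := by
      rw [hG10]; field_simp
    have h3 : 0 ≤ x ^ 4 * y ^ 3 * z ^ 3 := by positivity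
    have h4 : x ^ 4 * y ^ 3 * z ^ 3 ≤ (α ^ 4 * β ^ 3 * γ ^ 3) * (x ^ 4 * y ^ 3 * z ^ 3) :=
      le_mul_of_one_le_left h3 hp
    calc x ^ 4 * y ^ 3 * z ^ 3 ≤ (α ^ 4 * β ^ 3 * γ ^ 3) * (x ^ 4 * y ^ 3 * z ^ 3) := h4
      _ = (α * (x / X)) ^ 4 * (β * (y / Y)) ^ 3 * (γ * (z / Z)) ^ 3 * G ^ 10 := e.symm
      _ ≤ ((4 * (α * (x / X)) + 3 * (β * (y / Y)) + 3 * (γ * (z / Z))) / 10) ^ 10 * G ^ 10 := by
        gcongr
      _ = _ := by ring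
  have h5 : a ^ 10 ≤
      (D * G * ((4 * (α * (x / X)) + 3 * (β * (y / Y)) + 3 * (γ * (z / Z))) / 10)) ^ 10 := by
    calc a ^ 10 ≤ D ^ 10 * (x ^ 4 * y ^ 3 * z ^ 3) := h
      _ ≤ D ^ 10 * (G ^ 10 *
      ((4 * (α * (x / X)) + 3 * (β * (y / Y)) + 3 * (γ * (z / Z))) / 10) ^ 10) := by gcongr
      _ = _ := by ring
  have h6 : 0 ≤ D * G * ((4 * (α * (x / X)) + 3 * (β * (y / Y)) + 3 * (γ * (z / Z))) / 10) := by
    positivity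
  exact le_of_pow_le_pow_left₀ (by norm_num) h6 h5

/-- the tenth root of `X^4 Y^3 Z^3` -/
lemma exists_root {X Y Z : ℝ} (hX : 0 < X) (hY : 0 < Y) (hZ : 0 < Z) :
    ∃ G : ℝ, 0 < G ∧ G ^ 10 = X ^ 4 * Y ^ 3 * Z ^ 3 := by
  refine ⟨(X ^ 4 * Y ^ 3 * Z ^ 3) ^ (1 / 10 : ℝ), by positivity, ?_⟩
  rw [← Real.rpow_natCast, ← Real.rpow_mul (by positivity)]
  norm_num

/-- case `M = 3`, at least two elements below -/
lemma step33 {a0 a1 a2 a3 x0 x1 x2 y0 y1 y2 z0 z1 z2 C : ℝ} (hC : 0 ≤ C)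
    (ha0 : 0 ≤ a0) (ha1 : 0 ≤ a1) (ha2 : 0 ≤ a2) (ha3 : 0 ≤ a3)
    (hx0 : 0 < x0) (hx1 : x0 ≤ x1) (hx2 : x1 ≤ x2)
    (hy0 : 0 < y0) (hy1 : y0 ≤ y1) (hy2 : y1 ≤ y2)
    (hz0 : 0 < z0) (hz1 : z0 ≤ z1) (hz2 : z1 ≤ z2)
    (h0 : a0 ^ 10 ≤ (9 / 16 * C) ^ 10 * (x0 ^ 4 * y0 ^ 3 * z0 ^ 3))
    (h1 : a1 ^ 10 ≤ C ^ 10 * (x0 ^ 4 * y1 ^ 3 * z1 ^ 3))
    (h2 : a2 ^ 10 ≤ C ^ 10 * (x1 ^ 4 * y1 ^ 3 * z2 ^ 3))
    (h3 : a3 ^ 10 ≤ C ^ 10 * (x2 ^ 4 * y2 ^ 3 * z2 ^ 3)) :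
    (a0 + a1 + a2 + a3) ^ 10 ≤
      (4 / 3 * C) ^ 10 * ((x0 + x1 + x2) ^ 4 * (y0 + y1 + y2) ^ 3 * (z0 + z1 + z2) ^ 3) := by
  have hx1' : 0 < x1 := by linarith
  have hx2' : 0 < x2 := by linarith
  have hy1' : 0 < y1 := by linarith
  have hy2' : 0 < y2 := by linarith
  have hz1' : 0 < z1 := by linarith
  have hz2' : 0 < z2 := by linarith
  set X := x0 + x1 + x2 with hX
  set Y := y0 + y1 + y2 with hY
  set Z := z0 + z1 + z2 with hZ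
  have hXp : 0 < X := by positivity
  have hYp : 0 < Y := by positivity
  have hZp : 0 < Z := by positivity
  obtain ⟨G, hG, hG10⟩ := exists_root hXp hYp hZp
  have t0 := term3 (27 / 100) (239 / 100) (241 / 100) hx0.le hy0.le hz0.le hXp hYp hZp
    (by norm_num) (by norm_num) (by norm_num) (by norm_num) (by positivity) hG hG10 h0
  have t1 := term3 (23 / 20) (61 / 100) (273 / 200) hx0.le hy1'.le hz1'.le hXp hYp hZp
    (by norm_num) (by norm_num) (by norm_num) (by norm_num) hC hG hG10 h1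
  have t2 := term3 (133 / 100) (103 / 100) (133 / 200) hx1'.le hy1'.le hz2'.le hXp hYp hZp
    (by norm_num) (by norm_num) (by norm_num) (by norm_num) hC hG hG10 h2
  have t3 := term3 (32 / 25) (209 / 200) (69 / 100) hx2'.le hy2'.le hz2'.le hXp hYp hZp
    (by norm_num) (by norm_num) (by norm_num) (by norm_num) hC hG hG10 h3
  have ex : x0 / X + x1 / X + x2 / X = 1 := by rw [hX]; field_simp
  have ey : y0 / Y + y1 / Y + y2 / Y = 1 := by rw [hY]; field_simp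
  have ez : z0 / Z + z1 / Z + z2 / Z = 1 := by rw [hZ]; field_simp
  have mx1 : x0 / X ≤ x1 / X := by gcongr
  have mx2 : x1 / X ≤ x2 / X := by gcongr
  have my1 : y0 / Y ≤ y1 / Y := by gcongr
  have my2 : y1 / Y ≤ y2 / Y := by gcongr
  have mz1 : z0 / Z ≤ z1 / Z := by gcongr
  have mz2 : z1 / Z ≤ z2 / Z := by gcongr
  have px0 : 0 ≤ x0 / X := by positivity
  have py0 : 0 ≤ y0 / Y := by positivity
  have pz0 : 0 ≤ z0 / Z := by positivity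
  have hsum : a0 + a1 + a2 + a3 ≤ 4 / 3 * C * G := by
    have hl : 9 / 16 * ((4 * (27 / 100 * (x0 / X)) + 3 * (239 / 100 * (y0 / Y)) +
          3 * (241 / 100 * (z0 / Z))) / 10)
        + ((4 * (23 / 20 * (x0 / X)) + 3 * (61 / 100 * (y1 / Y)) +
          3 * (273 / 200 * (z1 / Z))) / 10)
        + ((4 * (133 / 100 * (x1 / X)) + 3 * (103 / 100 * (y1 / Y)) +
          3 * (133 / 200 * (z2 / Z))) / 10)
        + ((4 * (32 / 25 * (x2 / X)) + 3 * (209 / 200 * (y2 / Y)) +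
          3 * (69 / 100 * (z2 / Z))) / 10) ≤ 4 / 3 := by linarith
    have hCG : 0 ≤ C * G := by positivity
    have := mul_le_mul_of_nonneg_left hl hCG
    calc a0 + a1 + a2 + a3 ≤ _ := add_le_add (add_le_add (add_le_add t0 t1) t2) t3
      _ ≤ _ := by linarith
  calc (a0 + a1 + a2 + a3) ^ 10 ≤ (4 / 3 * C * G) ^ 10 := by gcongr
    _ = _ := by rw [mul_pow, hG10]

/-- case `M = 3`, exactly one element below -/
lemma step31 {a0 a1 a2 a3 x0 x1 x2 y0 y1 y2 z0 z1 z2 C : ℝ} (hC : 0 ≤ C)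
    (ha0 : 0 ≤ a0) (ha1 : 0 ≤ a1) (ha2 : 0 ≤ a2) (ha3 : 0 ≤ a3)
    (hx0 : 0 < x0) (hx1 : x0 ≤ x1) (hx2 : x1 ≤ x2) (bx1 : x1 ≤ 2 * x0) (bx2 : 2 * x2 ≤ 3 * x1)
    (hy0 : 0 < y0) (hy1 : y0 ≤ y1) (hy2 : y1 ≤ y2) (by1 : y1 ≤ 2 * y0) (by2 : 2 * y2 ≤ 3 * y1)
    (hz0 : 0 < z0) (hz1 : z0 ≤ z1) (hz2 : z1 ≤ z2) (bz1 : z1 ≤ 2 * z0) (bz2 : 2 * z2 ≤ 3 * z1)
    (h0 : a0 ^ 10 ≤ (3 / 4 * C) ^ 10 * (x0 ^ 4 * y0 ^ 3 * z0 ^ 3))
    (h1 : a1 ^ 10 ≤ C ^ 10 * (x0 ^ 4 * y1 ^ 3 * z1 ^ 3))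
    (h2 : a2 ^ 10 ≤ C ^ 10 * (x1 ^ 4 * y1 ^ 3 * z2 ^ 3))
    (h3 : a3 ^ 10 ≤ C ^ 10 * (x2 ^ 4 * y2 ^ 3 * z2 ^ 3)) :
    (a0 + a1 + a2 + a3) ^ 10 ≤
      (4 / 3 * C) ^ 10 * ((x0 + x1 + x2) ^ 4 * (y0 + y1 + y2) ^ 3 * (z0 + z1 + z2) ^ 3) := by
  have hx1' : 0 < x1 := by linarith
  have hx2' : 0 < x2 := by linarith
  have hy1' : 0 < y1 := by linarith
  have hy2' : 0 < y2 := by linarith
  have hz1' : 0 < z1 := by linarith
  have hz2' : 0 < z2 := by linarith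
  set X := x0 + x1 + x2 with hX
  set Y := y0 + y1 + y2 with hY
  set Z := z0 + z1 + z2 with hZ
  have hXp : 0 < X := by positivity
  have hYp : 0 < Y := by positivity
  have hZp : 0 < Z := by positivity
  obtain ⟨G, hG, hG10⟩ := exists_root hXp hYp hZp
  have t0 := term3 (7 / 10) (29 / 25) (7 / 5) hx0.le hy0.le hz0.le hXp hYp hZp
    (by norm_num) (by norm_num) (by norm_num) (by norm_num) (by positivity) hG hG10 h0
  have t1 := term3 (53 / 50) (22 / 25) (53 / 50) hx0.le hy1'.le hz1'.le hXp hYp hZp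
    (by norm_num) (by norm_num) (by norm_num) (by norm_num) hC hG hG10 h1
  have t2 := term3 (6 / 5) 1 (4 / 5) hx1'.le hy1'.le hz2'.le hXp hYp hZp
    (by norm_num) (by norm_num) (by norm_num) (by norm_num) hC hG hG10 h2
  have t3 := term3 (6 / 5) 1 (4 / 5) hx2'.le hy2'.le hz2'.le hXp hYp hZp
    (by norm_num) (by norm_num) (by norm_num) (by norm_num) hC hG hG10 h3
  have ex : x0 / X + x1 / X + x2 / X = 1 := by rw [hX]; field_simp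
  have ey : y0 / Y + y1 / Y + y2 / Y = 1 := by rw [hY]; field_simp
  have ez : z0 / Z + z1 / Z + z2 / Z = 1 := by rw [hZ]; field_simp
  have mx1 : x0 / X ≤ x1 / X := by gcongr
  have mx2 : x1 / X ≤ x2 / X := by gcongr
  have my1 : y0 / Y ≤ y1 / Y := by gcongr
  have my2 : y1 / Y ≤ y2 / Y := by gcongr
  have mz1 : z0 / Z ≤ z1 / Z := by gcongr
  have mz2 : z1 / Z ≤ z2 / Z := by gcongr
  have nx1 : x1 / X ≤ 2 * (x0 / X) := by rw [← mul_div_assoc]; gcongr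
  have nx2 : 2 * (x2 / X) ≤ 3 * (x1 / X) := by rw [← mul_div_assoc, ← mul_div_assoc]; gcongr
  have ny1 : y1 / Y ≤ 2 * (y0 / Y) := by rw [← mul_div_assoc]; gcongr
  have ny2 : 2 * (y2 / Y) ≤ 3 * (y1 / Y) := by rw [← mul_div_assoc, ← mul_div_assoc]; gcongr
  have nz1 : z1 / Z ≤ 2 * (z0 / Z) := by rw [← mul_div_assoc]; gcongr
  have nz2 : 2 * (z2 / Z) ≤ 3 * (z1 / Z) := by rw [← mul_div_assoc, ← mul_div_assoc]; gcongr
  have hsum : a0 + a1 + a2 + a3 ≤ 4 / 3 * C * G := by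
    have hl : 3 / 4 * ((4 * (7 / 10 * (x0 / X)) + 3 * (29 / 25 * (y0 / Y)) +
          3 * (7 / 5 * (z0 / Z))) / 10)
        + ((4 * (53 / 50 * (x0 / X)) + 3 * (22 / 25 * (y1 / Y)) +
          3 * (53 / 50 * (z1 / Z))) / 10)
        + ((4 * (6 / 5 * (x1 / X)) + 3 * (1 * (y1 / Y)) +
          3 * (4 / 5 * (z2 / Z))) / 10)
        + ((4 * (6 / 5 * (x2 / X)) + 3 * (1 * (y2 / Y)) +
          3 * (4 / 5 * (z2 / Z))) / 10) ≤ 4 / 3 := by linarith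
    have hCG : 0 ≤ C * G := by positivity
    have := mul_le_mul_of_nonneg_left hl hCG
    calc a0 + a1 + a2 + a3 ≤ _ := add_le_add (add_le_add (add_le_add t0 t1) t2) t3
      _ ≤ _ := by linarith
  calc (a0 + a1 + a2 + a3) ^ 10 ≤ (4 / 3 * C * G) ^ 10 := by gcongr
    _ = _ := by rw [mul_pow, hG10]

/-- case `M = 2`, at least one element below -/
lemma step32 {a0 a1 a2 x0 x1 y0 y1 z0 z1 z2 C : ℝ} (hC : 0 ≤ C)
    (ha0 : 0 ≤ a0) (ha1 : 0 ≤ a1) (ha2 : 0 ≤ a2)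
    (hx0 : 0 < x0) (hx1 : x0 ≤ x1)
    (hy0 : 0 < y0) (hy1 : y0 ≤ y1)
    (hz0 : 0 < z0) (hz1 : z0 ≤ z1) (hz2 : z1 ≤ z2)
    (h0 : a0 ^ 10 ≤ (3 / 4 * C) ^ 10 * (x0 ^ 4 * y0 ^ 3 * z0 ^ 3))
    (h1 : a1 ^ 10 ≤ C ^ 10 * (x0 ^ 4 * y1 ^ 3 * z1 ^ 3))
    (h2 : a2 ^ 10 ≤ C ^ 10 * (x1 ^ 4 * y1 ^ 3 * z2 ^ 3)) :
    (a0 + a1 + a2) ^ 10 ≤
      (4 / 3 * C) ^ 10 * ((x0 + x1) ^ 4 * (y0 + y1) ^ 3 * (z0 + z1 + z2) ^ 3) := by
  have hx1' : 0 < x1 := by linarith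
  have hy1' : 0 < y1 := by linarith
  have hz1' : 0 < z1 := by linarith
  have hz2' : 0 < z2 := by linarith
  set X := x0 + x1 with hX
  set Y := y0 + y1 with hY
  set Z := z0 + z1 + z2 with hZ
  have hXp : 0 < X := by positivity
  have hYp : 0 < Y := by positivity
  have hZp : 0 < Z := by positivity
  obtain ⟨G, hG, hG10⟩ := exists_root hXp hYp hZp
  have t0 := term3 (9 / 20) (7 / 4) (17 / 10) hx0.le hy0.le hz0.le hXp hYp hZp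
    (by norm_num) (by norm_num) (by norm_num) (by norm_num) (by positivity) hG hG10 h0
  have t1 := term3 (23 / 20) (13 / 20) (13 / 10) hx0.le hy1'.le hz1'.le hXp hYp hZp
    (by norm_num) (by norm_num) (by norm_num) (by norm_num) hC hG hG10 h1
  have t2 := term3 (23 / 20) (13 / 20) (13 / 10) hx1'.le hy1'.le hz2'.le hXp hYp hZp
    (by norm_num) (by norm_num) (by norm_num) (by norm_num) hC hG hG10 h2
  have ex : x0 / X + x1 / X = 1 := by rw [hX]; field_simp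
  have ey : y0 / Y + y1 / Y = 1 := by rw [hY]; field_simp
  have ez : z0 / Z + z1 / Z + z2 / Z = 1 := by rw [hZ]; field_simp
  have mx1 : x0 / X ≤ x1 / X := by gcongr
  have my1 : y0 / Y ≤ y1 / Y := by gcongr
  have mz1 : z0 / Z ≤ z1 / Z := by gcongr
  have mz2 : z1 / Z ≤ z2 / Z := by gcongr
  have px0 : 0 ≤ x0 / X := by positivity
  have py0 : 0 ≤ y0 / Y := by positivity
  have pz0 : 0 ≤ z0 / Z := by positivity
  have hsum : a0 + a1 + a2 ≤ 4 / 3 * C * G := by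
    have hl : 3 / 4 * ((4 * (9 / 20 * (x0 / X)) + 3 * (7 / 4 * (y0 / Y)) +
          3 * (17 / 10 * (z0 / Z))) / 10)
        + ((4 * (23 / 20 * (x0 / X)) + 3 * (13 / 20 * (y1 / Y)) +
          3 * (13 / 10 * (z1 / Z))) / 10)
        + ((4 * (23 / 20 * (x1 / X)) + 3 * (13 / 20 * (y1 / Y)) +
          3 * (13 / 10 * (z2 / Z))) / 10) ≤ 4 / 3 := by linarith
    have hCG : 0 ≤ C * G := by positivity
    have := mul_le_mul_of_nonneg_left hl hCG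
    calc a0 + a1 + a2 ≤ _ := add_le_add (add_le_add t0 t1) t2
      _ ≤ _ := by linarith
  calc (a0 + a1 + a2) ^ 10 ≤ (4 / 3 * C * G) ^ 10 := by gcongr
    _ = _ := by rw [mul_pow, hG10]

/-- case `M = 1` -/
lemma step30 {a0 a1 x0 y0 y1 z0 z1 C : ℝ} (hC : 0 ≤ C)
    (ha0 : 0 ≤ a0) (ha1 : 0 ≤ a1) (hx0 : 0 < x0)
    (hy0 : 0 < y0) (hy1 : y0 ≤ y1) (hz0 : 0 < z0) (hz1 : z0 ≤ z1)
    (h0 : a0 ^ 10 ≤ C ^ 10 * (x0 ^ 4 * y0 ^ 3 * z0 ^ 3))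
    (h1 : a1 ^ 10 ≤ C ^ 10 * (x0 ^ 4 * y1 ^ 3 * z1 ^ 3)) :
    (a0 + a1) ^ 10 ≤
      (4 / 3 * C) ^ 10 * (x0 ^ 4 * (y0 + y1) ^ 3 * (z0 + z1) ^ 3) := by
  have hy1' : 0 < y1 := by linarith
  have hz1' : 0 < z1 := by linarith
  set Y := y0 + y1 with hY
  set Z := z0 + z1 with hZ
  have hYp : 0 < Y := by positivity
  have hZp : 0 < Z := by positivity
  obtain ⟨G, hG, hG10⟩ := exists_root hx0 hYp hZp
  have t0 := term3 (33 / 50) (33 / 25) (33 / 25) hx0.le hy0.le hz0.le hx0 hYp hZp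
    (by norm_num) (by norm_num) (by norm_num) (by norm_num) hC hG hG10 h0
  have t1 := term3 (33 / 50) (33 / 25) (33 / 25) hx0.le hy1'.le hz1'.le hx0 hYp hZp
    (by norm_num) (by norm_num) (by norm_num) (by norm_num) hC hG hG10 h1
  have ex : x0 / x0 = 1 := by field_simp
  have ey : y0 / Y + y1 / Y = 1 := by rw [hY]; field_simp
  have ez : z0 / Z + z1 / Z = 1 := by rw [hZ]; field_simp
  have hsum : a0 + a1 ≤ 4 / 3 * C * G := by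
    have hl : ((4 * (33 / 50 * (x0 / x0)) + 3 * (33 / 25 * (y0 / Y)) +
          3 * (33 / 25 * (z0 / Z))) / 10)
        + ((4 * (33 / 50 * (x0 / x0)) + 3 * (33 / 25 * (y1 / Y)) +
          3 * (33 / 25 * (z1 / Z))) / 10) ≤ 4 / 3 := by linarith
    have hCG : 0 ≤ C * G := by positivity
    have := mul_le_mul_of_nonneg_left hl hCG
    calc a0 + a1 ≤ _ := add_le_add t0 t1
      _ ≤ _ := by linarith
  calc (a0 + a1) ^ 10 ≤ (4 / 3 * C * G) ^ 10 := by gcongr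
    _ = _ := by rw [mul_pow, hG10]

lemma term2 {x y X Y a D G : ℝ} (α β : ℝ) (hx : 0 ≤ x) (hy : 0 ≤ y)
    (hX : 0 < X) (hY : 0 < Y) (hα : 0 < α) (hβ : 0 < β)
    (hp : 1 ≤ α * β) (hD : 0 ≤ D) (hG : 0 < G)
    (hG2 : G ^ 2 = X * Y) (h : a ^ 2 ≤ D ^ 2 * (x * y)) :
    a ≤ D * G * ((α * (x / X) + β * (y / Y)) / 2) := by
  have hu : 0 ≤ α * (x / X) := by positivity
  have hv : 0 ≤ β * (y / Y) := by positivity
  have h1 : (α * (x / X)) * (β * (y / Y)) ≤ ((α * (x / X) + β * (y / Y)) / 2) ^ 2 := by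
    nlinarith [sq_nonneg (α * (x / X) - β * (y / Y))]
  have h2 : x * y ≤ G ^ 2 * ((α * (x / X) + β * (y / Y)) / 2) ^ 2 := by
    have e : (α * (x / X)) * (β * (y / Y)) * G ^ 2 = (α * β) * (x * y) := by
      rw [hG2]; field_simp
    have h3 : 0 ≤ x * y := by positivity
    calc x * y ≤ (α * β) * (x * y) := le_mul_of_one_le_left h3 hp
      _ = (α * (x / X)) * (β * (y / Y)) * G ^ 2 := e.symm
      _ ≤ ((α * (x / X) + β * (y / Y)) / 2) ^ 2 * G ^ 2 := by gcongr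
      _ = _ := by ring
  have h5 : a ^ 2 ≤ (D * G * ((α * (x / X) + β * (y / Y)) / 2)) ^ 2 := by
    calc a ^ 2 ≤ D ^ 2 * (x * y) := h
      _ ≤ D ^ 2 * (G ^ 2 * ((α * (x / X) + β * (y / Y)) / 2) ^ 2) := by gcongr
      _ = _ := by ring
  have h6 : 0 ≤ D * G * ((α * (x / X) + β * (y / Y)) / 2) := by positivity
  exact le_of_pow_le_pow_left₀ (by norm_num) h6 h5

lemma exists_root2 {X Y : ℝ} (hX : 0 < X) (hY : 0 < Y) : ∃ G : ℝ, 0 < G ∧ G ^ 2 = X * Y :=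
  ⟨Real.sqrt (X * Y), Real.sqrt_pos.mpr (by positivity), Real.sq_sqrt (by positivity)⟩

/-- `t = 2`, case `M = 2`, at least one element below -/
lemma step22 {a0 a1 a2 x0 x1 y0 y1 C : ℝ} (hC : 0 ≤ C)
    (ha0 : 0 ≤ a0) (ha1 : 0 ≤ a1) (ha2 : 0 ≤ a2)
    (hx0 : 0 < x0) (hx1 : x0 ≤ x1) (hy0 : 0 < y0) (hy1 : y0 ≤ y1)
    (h0 : a0 ^ 2 ≤ (2 / 3 * C) ^ 2 * (x0 * y0))
    (h1 : a1 ^ 2 ≤ C ^ 2 * (x0 * y1))
    (h2 : a2 ^ 2 ≤ C ^ 2 * (x1 * y1)) :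
    (a0 + a1 + a2) ^ 2 ≤ (3 / 2 * C) ^ 2 * ((x0 + x1) * (y0 + y1)) := by
  have hx1' : 0 < x1 := by linarith
  have hy1' : 0 < y1 := by linarith
  set X := x0 + x1 with hX
  set Y := y0 + y1 with hY
  have hXp : 0 < X := by positivity
  have hYp : 0 < Y := by positivity
  obtain ⟨G, hG, hG2⟩ := exists_root2 hXp hYp
  have t0 := term2 (9 / 20) (20 / 9) hx0.le hy0.le hXp hYp
    (by norm_num) (by norm_num) (by norm_num) (by positivity) hG hG2 h0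
  have t1 := term2 (4 / 3) (3 / 4) hx0.le hy1'.le hXp hYp
    (by norm_num) (by norm_num) (by norm_num) hC hG hG2 h1
  have t2 := term2 (4 / 3) (3 / 4) hx1'.le hy1'.le hXp hYp
    (by norm_num) (by norm_num) (by norm_num) hC hG hG2 h2
  have ex : x0 / X + x1 / X = 1 := by rw [hX]; field_simp
  have ey : y0 / Y + y1 / Y = 1 := by rw [hY]; field_simp
  have mx1 : x0 / X ≤ x1 / X := by gcongr
  have my1 : y0 / Y ≤ y1 / Y := by gcongr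
  have py0 : 0 ≤ y0 / Y := by positivity
  have hsum : a0 + a1 + a2 ≤ 3 / 2 * C * G := by
    have hl : 2 / 3 * ((9 / 20 * (x0 / X) + 20 / 9 * (y0 / Y)) / 2)
        + ((4 / 3 * (x0 / X) + 3 / 4 * (y1 / Y)) / 2)
        + ((4 / 3 * (x1 / X) + 3 / 4 * (y1 / Y)) / 2) ≤ 3 / 2 := by linarith
    have hCG : 0 ≤ C * G := by positivity
    have := mul_le_mul_of_nonneg_left hl hCG
    calc a0 + a1 + a2 ≤ _ := add_le_add (add_le_add t0 t1) t2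
      _ ≤ _ := by linarith
  calc (a0 + a1 + a2) ^ 2 ≤ (3 / 2 * C * G) ^ 2 := by gcongr
    _ = _ := by rw [mul_pow, hG2]

/-- `t = 2`, case `M = 1` -/
lemma step21 {a0 a1 x0 y0 y1 C : ℝ} (hC : 0 ≤ C)
    (ha0 : 0 ≤ a0) (ha1 : 0 ≤ a1) (hx0 : 0 < x0) (hy0 : 0 < y0) (hy1 : y0 ≤ y1)
    (h0 : a0 ^ 2 ≤ C ^ 2 * (x0 * y0))
    (h1 : a1 ^ 2 ≤ C ^ 2 * (x0 * y1)) :
    (a0 + a1) ^ 2 ≤ (3 / 2 * C) ^ 2 * (x0 * (y0 + y1)) := by
  have hy1' : 0 < y1 := by linarith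
  have h3 : (a0 + a1) ^ 2 ≤ 2 * (a0 ^ 2 + a1 ^ 2) := by nlinarith [sq_nonneg (a0 - a1)]
  have h4 : 0 ≤ C ^ 2 * (x0 * (y0 + y1)) := by positivity
  nlinarith

end Pool.Agent.KahnSaks
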