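import Pool.Agent.KahnSaks.Count
import Pool.Agent.KahnSaks.Steps

open Finset

namespace Pool.Agent.KahnSaks

variable {α : Type*} [Fintype α] [PartialOrder α]

set_option linter.unusedSectionVars false

/-- if `y` is the only element below `z` with a nonzero cap, raising the cap from `l` to `l+1`
multiplies the count by at most `(l+2)/(l+1)` -/
lemma slope (S : Finset α) (p : α → ℕ) (y z : α) (hyz : y < z)
    (hp : ∀ x, x < z → x ≠ y → p x = 0) (l : ℕ) :
    (l + 1) * cnt S (cap p z (l + 1)) ≤ (l + 2) * cnt S (cap p z l) := by
  classical
  have hyz' : y ≠ z := hyz.ne
  by_cases hpy : p y ≤ l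
  · have : cap p z (l + 1) = cap p z l := by
      funext x
      simp only [cap]
      split_ifs with h1 h2
      · rfl
      · by_cases hx : x = y
        · subst hx
          rw [min_eq_left (by omega), min_eq_left (by omega)]
        · rw [hp x h2 hx]; simp
      · rfl
    rw [this]
    exact Nat.mul_le_mul_right _ (by omega)
  · rw [not_le] at hpy
    set B := (Fintype.piFinset (fun x => range (cap p z (l + 1) x + 1))).filter
      (fun f => ∀ x ∈ S, ∀ y ∈ S, x ≤ y → f x ≤ f y) with hB
    have hcapy : cap p z (l + 1) y = l + 1 := by
      simp only [cap, if_neg hyz', if_pos hyz]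
      exact min_eq_right (by omega)
    have hcapx : ∀ x, x ≠ y → cap p z (l + 1) x = cap p z l x := by
      intro x hx
      simp only [cap]
      split_ifs with h1 h2
      · rfl
      · rw [hp x h2 hx]; simp
      · rfl
    have hcapy0 : cap p z l y = l := by
      simp only [cap, if_neg hyz', if_pos hyz]
      exact min_eq_right (by omega)
    have hcap0 : ∀ x, x < y → cap p z (l + 1) x = 0 := by
      intro x hx
      have hxz : x < z := hx.trans hyz
      simp only [cap, if_neg hxz.ne, if_pos hxz]
      rw [hp x hxz hx.ne]; simp
    -- the count at cap l is the part f y ≤ l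
    have e1 : cnt S (cap p z l) = (B.filter (fun f => f y ≤ l)).card := by
      unfold cnt
      congr 1
      ext f
      simp only [hB, mem_filter, Fintype.mem_piFinset, mem_range]
      constructor
      · rintro ⟨h1, h2⟩
        refine ⟨⟨?_, h2⟩, ?_⟩
        · intro x
          by_cases hx : x = y
          · subst hx; have := h1 x; rw [hcapy0] at this; rw [hcapy]; omega
          · rw [hcapx x hx]; exact h1 x
        · have := h1 y; rw [hcapy0] at this; omega
      · rintro ⟨⟨h1, h2⟩, h3⟩
        refine ⟨?_, h2⟩
        intro x
        by_cases hx : x = y
        · subst hx; rw [hcapy0]; omega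
        · rw [← hcapx x hx]; exact h1 x
    have e2 : cnt S (cap p z (l + 1)) =
        (B.filter (fun f => f y ≤ l)).card + (B.filter (fun f => f y = l + 1)).card := by
      unfold cnt
      rw [← hB, ← Finset.card_union_of_disjoint]
      · congr 1
        ext f
        simp only [mem_union, mem_filter]
        constructor
        · intro hf
          have : f y < l + 1 + 1 := by
            have := (Fintype.mem_piFinset.mp (mem_filter.mp hf).1) y
            rw [mem_range, hcapy] at this
            exact this
          rcases Nat.lt_succ_iff_lt_or_eq.mp this with h | h
          · left; exact ⟨hf, by omega⟩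
          · right; exact ⟨hf, h⟩
        · rintro (h | h) <;> exact h.1
      · rw [Finset.disjoint_filter]
        intro f _ h1 h2
        omega
    have e3 : (l + 1) * (B.filter (fun f => f y = l + 1)).card
        ≤ (B.filter (fun f => f y ≤ l)).card := by
      rw [Finset.card_eq_sum_card_fiberwise (s := B.filter (fun f => f y ≤ l))
        (f := fun f : α → ℕ => f y) (t := range (l + 1))]
      · have : (l + 1) * (B.filter (fun f => f y = l + 1)).card
            = ∑ _v ∈ range (l + 1), (B.filter (fun f => f y = l + 1)).card := by simp
        rw [this]
        apply Finset.sum_le_sum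
        intro v hv
        rw [mem_range] at hv
        apply Finset.card_le_card_of_injOn (fun f => Function.update f y v)
        · intro f hf
          have hf' := Finset.mem_coe.mp hf
          simp only [hB, mem_filter, Fintype.mem_piFinset, mem_range] at hf'
          obtain ⟨⟨h1, h2⟩, h3⟩ := hf'
          simp only [hB, mem_coe, mem_filter, Fintype.mem_piFinset, mem_range]
          refine ⟨⟨⟨?_, ?_⟩, ?_⟩, ?_⟩
          · intro x
            by_cases hx : x = y
            · subst hx; rw [Function.update_self, hcapy]; omega
            · rw [Function.update_of_ne hx]; exact h1 x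
          · intro a ha b hb hab
            by_cases hay : a = y
            · subst hay
              rw [Function.update_self]
              by_cases hby : b = a
              · subst hby; rw [Function.update_self]
              · rw [Function.update_of_ne hby]
                have := h2 a ha b hb hab
                omega
            · rw [Function.update_of_ne hay]
              by_cases hby : b = y
              · subst hby
                rw [Function.update_self]
                have hlt : a < b := lt_of_le_of_ne hab hay
                have := h1 a
                rw [hcap0 a hlt] at this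
                omega
              · rw [Function.update_of_ne hby]
                exact h2 a ha b hb hab
          · rw [Function.update_self]; omega
          · rw [Function.update_self]
        · intro f hf g hg hfg
          have hf' := Finset.mem_coe.mp hf
          have hg' := Finset.mem_coe.mp hg
          simp only [mem_filter] at hf' hg'
          funext x
          by_cases hx : x = y
          · subst hx; rw [hf'.2, hg'.2]
          · have := congrFun hfg x
            simpa [Function.update_of_ne hx] using this
      · intro f hf
        simp only [mem_coe, mem_filter, mem_range] at hf ⊢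
        omega
    rw [e2, e1]
    nlinarith

open scoped Classical in
/-- number of nonzero caps -/
noncomputable def sp (m : α → ℕ) : ℕ := (univ.filter (fun x => m x ≠ 0)).card

open scoped Classical in
/-- number of nonzero caps strictly below `z` -/
noncomputable def below (m : α → ℕ) (z : α) : ℕ := (univ.filter (fun x => x < z ∧ m x ≠ 0)).card

lemma sp_cap_pos (m : α → ℕ) (z : α) (hz : m z ≠ 0) (j : ℕ) (hj : 1 ≤ j) :
    sp (cap m z j) + 1 = sp m := by
  classical
  unfold sp
  have : (univ.filter (fun x => cap m z j x ≠ 0)) = (univ.filter (fun x => m x ≠ 0)).erase z := by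
    ext x
    simp only [mem_filter, mem_univ, true_and, mem_erase]
    by_cases hx : x = z
    · subst hx; simp [cap]
    · by_cases h : x < z
      · have e : cap m z j x = min (m x) j := by simp [cap, hx, h]
        rw [e]
        constructor
        · intro h1
          refine ⟨hx, ?_⟩
          intro h2; rw [h2] at h1; simp at h1
        · rintro ⟨_, h1⟩ h2
          rcases Nat.min_eq_zero_iff.mp h2 with h3 | h3
          · exact h1 h3
          · omega
      · have e : cap m z j x = m x := by simp [cap, hx, h]
        rw [e]
        exact ⟨fun h1 => ⟨hx, h1⟩, fun h1 => h1.2⟩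
  rw [this, Finset.card_erase_add_one (by simp [hz])]

lemma sp_cap_zero (m : α → ℕ) (z : α) (hz : m z ≠ 0) :
    sp (cap m z 0) + below m z + 1 = sp m := by
  classical
  unfold sp below
  have hd : Disjoint (univ.filter (fun x => cap m z 0 x ≠ 0))
      (univ.filter (fun x => x < z ∧ m x ≠ 0)) := by
    rw [Finset.disjoint_filter]
    intro x _ h1 h2
    apply h1
    simp [cap, h2.1, h2.1.ne]
  rw [← Finset.card_union_of_disjoint hd]
  have : (univ.filter (fun x => cap m z 0 x ≠ 0)) ∪ (univ.filter (fun x => x < z ∧ m x ≠ 0))
      = (univ.filter (fun x => m x ≠ 0)).erase z := by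
    ext x
    simp only [mem_union, mem_filter, mem_univ, true_and, mem_erase]
    by_cases hx : x = z
    · subst hx; simp [cap]
    · by_cases h : x < z
      · have e : cap m z 0 x = 0 := by simp [cap, hx, h]
        rw [e]
        constructor
        · rintro (h1 | h1)
          · exact absurd rfl h1
          · exact ⟨hx, h1.2⟩
        · rintro ⟨_, h1⟩
          exact Or.inr ⟨h, h1⟩
      · have e : cap m z 0 x = m x := by simp [cap, hx, h]
        rw [e]
        constructor
        · rintro (h1 | h1)
          · exact ⟨hx, h1⟩
          · exact absurd h1.1 h
        · rintro ⟨_, h1⟩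
          exact Or.inl h1
  rw [this, Finset.card_erase_add_one (by simp [hz])]

lemma sp_cap_of_zero (m : α → ℕ) (z : α) (j : ℕ) : sp (cap m z j) ≤ sp m := by
  classical
  unfold sp
  apply Finset.card_le_card
  intro x
  simp only [mem_filter, mem_univ, true_and]
  intro h h'
  apply h
  simp only [cap]
  split_ifs
  · rfl
  · rw [h']; simp
  · exact h'

lemma cap_eq_of_below_zero (m : α → ℕ) (z : α) (hK : below m z = 0) (j j' : ℕ) :
    cap m z j = cap m z j' := by
  classical
  unfold below at hK
  rw [Finset.card_eq_zero, Finset.filter_eq_empty_iff] at hK
  funext x
  simp only [cap]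
  split_ifs with h1 h2
  · rfl
  · have := hK (mem_univ x)
    push_neg at this
    rw [this h2]; simp
  · rfl

lemma exists_below_one (m : α → ℕ) (z : α) (hK : below m z = 1) :
    ∃ y, y < z ∧ ∀ x, x < z → x ≠ y → m x = 0 := by
  classical
  unfold below at hK
  rw [Finset.card_eq_one] at hK
  obtain ⟨y, hy⟩ := hK
  have h1 : y ∈ univ.filter (fun x => x < z ∧ m x ≠ 0) := by rw [hy]; simp
  simp only [mem_filter, mem_univ, true_and] at h1
  refine ⟨y, h1.1, ?_⟩
  intro x hx hxy
  by_contra hne
  have h2 : x ∈ univ.filter (fun x => x < z ∧ m x ≠ 0) := by simp [hx, hne]
  rw [hy] at h2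
  exact hxy (by simpa using h2)

lemma cap_mono_level (m : α → ℕ) (z : α) {j j' : ℕ} (h : j ≤ j') (x : α) :
    cap m z j x ≤ cap m z j' x := by
  classical
  simp only [cap]
  split_ifs
  · exact le_refl _
  · exact min_le_min_left _ h
  · exact le_refl _

end Pool.Agent.KahnSaks
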