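import Pool.Agent.KahnSaks.Pinned3

open Finset

namespace Pool.Agent.KahnSaks

/-- the number of order-preserving maps from `β` to a chain with `t` elements -/
noncomputable def hom (β : Type*) [Fintype β] [PartialOrder β] (t : ℕ) : ℕ :=
  Nat.card {f : β → Fin t // Monotone f}

open scoped Classical in
/-- order-preserving maps `β → {0, …, t-1}`, as a finset of maps to `ℕ` -/
noncomputable def HS (β : Type*) [Fintype β] [PartialOrder β] (t : ℕ) : Finset (β → ℕ) :=
  (Fintype.piFinset (fun _ => range t)).filter (fun f => Monotone f)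

lemma mem_HS {β : Type*} [Fintype β] [PartialOrder β] {t : ℕ} {f : β → ℕ} :
    f ∈ HS β t ↔ (∀ x, f x < t) ∧ Monotone f := by
  classical
  simp [HS, Fintype.mem_piFinset]

lemma hom_eq_card (β : Type*) [Fintype β] [PartialOrder β] (t : ℕ) :
    hom β t = (HS β t).card := by
  unfold hom
  rw [← Nat.card_eq_finsetCard]
  apply Nat.card_congr
  exact
    { toFun := fun f => ⟨fun x => (f.1 x : ℕ), mem_HS.mpr ⟨fun x => (f.1 x).2, fun x y h => f.2 h⟩⟩
      invFun := fun g => ⟨fun x => ⟨g.1 x, (mem_HS.mp g.2).1 x⟩,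
        fun x y h => Fin.mk_le_mk.mpr ((mem_HS.mp g.2).2 h)⟩
      left_inv := fun f => by ext; rfl
      right_inv := fun g => by ext; rfl }

lemma card_HS_eq_cnt (β : Type*) [Fintype β] [PartialOrder β] (t : ℕ) :
    (HS β (t + 1)).card = cnt (univ : Finset β) (fun _ => t) := by
  classical
  unfold HS cnt
  congr 1
  ext f
  simp only [mem_filter]
  exact ⟨fun h => ⟨h.1, fun x _ y _ hxy => h.2 hxy⟩, fun h => ⟨h.1, fun x y hxy =>
    h.2 x (mem_univ x) y (mem_univ y) hxy⟩⟩

lemma sp_const (β : Type*) [Fintype β] [PartialOrder β] (t : ℕ) (ht : t ≠ 0) :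
    sp (fun _ : β => t) = Fintype.card β := by
  classical
  unfold sp
  simp [ht]

/-- Kahn–Saks monotonicity for `t ≤ 3`, multiplicative form -/
theorem step_small (β : Type*) [Fintype β] [PartialOrder β] (s : ℕ) (hs : 1 ≤ s) (hs3 : s ≤ 3) :
    ((HS β (s + 1)).card : ℝ) ≤ (((s : ℝ) + 1) / s) ^ Fintype.card β * ((HS β s).card : ℝ) := by
  classical
  obtain ⟨u, rfl⟩ : ∃ u, s = u + 1 := ⟨s - 1, by omega⟩
  rw [card_HS_eq_cnt, card_HS_eq_cnt]
  have hu : u < 3 := by omega
  have hsupp : ∀ (v : ℕ) (x : β), x ∉ (univ : Finset β) → (fun _ : β => v) x = 0 :=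
    fun v x hx => absurd (mem_univ x) hx
  interval_cases u
  · -- s = 1 : at most 2 ^ n
    have h1 : 1 ≤ cnt (univ : Finset β) (fun _ => 0) := cnt_pos _ _
    have h2 : cnt (univ : Finset β) (fun _ => 0 + 1) ≤ 2 ^ Fintype.card β := by
      unfold cnt
      refine (Finset.card_filter_le _ _).trans ?_
      simp
    have h1' : (1 : ℝ) ≤ (cnt (univ : Finset β) (fun _ => 0) : ℝ) := by exact_mod_cast h1
    have h2' : (cnt (univ : Finset β) (fun _ => 0 + 1) : ℝ) ≤ 2 ^ Fintype.card β := by
      exact_mod_cast h2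
    have h3 : (0 : ℝ) < 2 ^ Fintype.card β := by positivity
    have e : (((0 + 1 : ℕ) : ℝ) + 1) / ((0 + 1 : ℕ) : ℝ) = 2 := by norm_num
    rw [e]
    nlinarith
  · have h := pinned2 _ (univ : Finset β) rfl (fun _ => 2) (hsupp 2) (fun _ => le_refl 2)
    rw [sp_const β 2 (by norm_num)] at h
    have e1 : psi 1 2 = 1 := rfl
    have e2 : psi 2 2 = 1 := rfl
    simp only [e1, e2] at h
    have e : (((1 + 1 : ℕ) : ℝ) + 1) / ((1 + 1 : ℕ) : ℝ) = 3 / 2 := by norm_num
    rw [e]
    have h5 : (cnt (univ : Finset β) (fun _ => 2) : ℝ) ^ 2 ≤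
        ((3 / 2 : ℝ) ^ Fintype.card β * (cnt (univ : Finset β) (fun _ => 1) : ℝ)) ^ 2 := by
      refine h.trans (le_of_eq (by ring))
    exact le_of_pow_le_pow_left₀ (by norm_num) (by positivity) h5
  · have h := pinned3 _ (univ : Finset β) rfl (fun _ => 3) (hsupp 3) (fun _ => le_refl 3)
    rw [sp_const β 3 (by norm_num)] at h
    have e1 : psi 1 3 = 2 := rfl
    have e2 : psi 2 3 = 2 := rfl
    have e3 : psi 3 3 = 2 := rfl
    simp only [e1, e2, e3] at h
    have e : (((2 + 1 : ℕ) : ℝ) + 1) / ((2 + 1 : ℕ) : ℝ) = 4 / 3 := by norm_num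
    rw [e]
    have h5 : (cnt (univ : Finset β) (fun _ => 3) : ℝ) ^ 10 ≤
        ((4 / 3 : ℝ) ^ Fintype.card β * (cnt (univ : Finset β) (fun _ => 2) : ℝ)) ^ 10 := by
      refine h.trans (le_of_eq (by ring))
    exact le_of_pow_le_pow_left₀ (by norm_num) (by positivity) h5

/-- collapse the window `c, c+1, …, c+u` to the single level `c` -/
def kap (c u v : ℕ) : ℕ := if v < c then v else if v ≤ c + u then c else v - u

lemma kap_mono (c u : ℕ) : Monotone (kap c u) := by
  intro a b h
  unfold kap
  split_ifs <;> omega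

/-- the fibre of the collapse -/
lemma card_fiber {β : Type*} [Fintype β] [PartialOrder β] [DecidableEq (β → ℕ)] (b c u : ℕ)
    (hc : c < b) (F : β → ℕ) (hF : F ∈ HS β b) :
    ((HS β (b + u)).filter (fun f => (fun x => kap c u (f x)) = F)).card
      = (HS {x : β // F x = c} (u + 1)).card := by
  classical
  obtain ⟨hF1, hF2⟩ := mem_HS.mp hF
  refine Finset.card_bij' (fun f _ => fun x : {x : β // F x = c} => f x.1 - c)
    (fun g _ => fun x => if h : F x = c then c + g ⟨x, h⟩ else if F x < c then F x else F x + u)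
    ?_ ?_ ?_ ?_
  · intro f hf
    rw [mem_filter, mem_HS] at hf
    obtain ⟨⟨h1, h2⟩, h3⟩ := hf
    rw [mem_HS]
    have key : ∀ x, F x = c → c ≤ f x ∧ f x ≤ c + u := by
      intro x hx
      have h4 := congrFun h3 x
      simp only [kap] at h4
      rw [hx] at h4
      split_ifs at h4 with h5 h6
      · omega
      · exact ⟨by omega, h6⟩
      · omega
    constructor
    · intro x
      have := key x.1 x.2
      omega
    · intro x y hxy
      have := h2 (show x.1 ≤ y.1 from hxy)
      show f x.1 - c ≤ f y.1 - c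
      omega
  · intro g hg
    rw [mem_HS] at hg
    obtain ⟨h1, h2⟩ := hg
    rw [mem_filter, mem_HS]
    refine ⟨⟨?_, ?_⟩, ?_⟩
    · intro x
      have := hF1 x
      by_cases h : F x = c
      · have h3 := h1 ⟨x, h⟩
        simp only [dif_pos h]
        omega
      · simp only [dif_neg h]
        split_ifs <;> omega
    · intro x y hxy
      have h3 := hF2 hxy
      show (if h : F x = c then c + g ⟨x, h⟩ else if F x < c then F x else F x + u) ≤
        (if h : F y = c then c + g ⟨y, h⟩ else if F y < c then F y else F y + u)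
      by_cases hx : F x = c
      · by_cases hy : F y = c
        · rw [dif_pos hx, dif_pos hy]
          have : g ⟨x, hx⟩ ≤ g ⟨y, hy⟩ := h2 (show (⟨x, hx⟩ : {x : β // F x = c}) ≤ ⟨y, hy⟩ from hxy)
          omega
        · rw [dif_pos hx, dif_neg hy]
          have := h1 ⟨x, hx⟩
          split_ifs <;> omega
      · by_cases hy : F y = c
        · rw [dif_neg hx, dif_pos hy]
          split_ifs <;> omega
        · rw [dif_neg hx, dif_neg hy]
          split_ifs <;> omega
    · funext x
      by_cases h : F x = c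
      · have h3 := h1 ⟨x, h⟩
        simp only [dif_pos h, kap]
        split_ifs <;> omega
      · simp only [dif_neg h, kap]
        split_ifs <;> omega
  · intro f hf
    rw [mem_filter, mem_HS] at hf
    obtain ⟨⟨h1, h2⟩, h3⟩ := hf
    funext x
    have h4 := congrFun h3 x
    simp only [kap] at h4
    by_cases h : F x = c
    · simp only [dif_pos h]
      rw [h] at h4
      split_ifs at h4 <;> omega
    · simp only [dif_neg h]
      split_ifs at h4 ⊢ <;> omega
  · intro g hg
    funext x
    simp only [dif_pos x.2]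
    exact Nat.add_sub_cancel_left _ _

/-- weighted window inequality -/
lemma window (β : Type*) [Fintype β] [PartialOrder β] [DecidableEq (β → ℕ)] (b c s : ℕ)
    (hc : c < b) (hs : 1 ≤ s) (hs3 : s ≤ 3) (W : (β → ℕ) → ℝ) (hW : ∀ F, 0 ≤ W F) :
    ∑ f ∈ HS β (b + s), ((s : ℝ) / (s + 1)) ^ (univ.filter (fun x => kap c s (f x) = c)).card *
        W (fun x => kap c s (f x))
      ≤ ∑ f ∈ HS β (b + s - 1), W (fun x => kap c (s - 1) (f x)) := by
  classical
  obtain ⟨u, rfl⟩ : ∃ u, s = u + 1 := ⟨s - 1, by omega⟩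
  have hmaps : ∀ v : ℕ, ∀ f ∈ HS β (b + v), (fun x => kap c v (f x)) ∈ HS β b := by
    intro v f hf
    rw [mem_HS] at hf ⊢
    refine ⟨?_, fun x y h => kap_mono c v (hf.2 h)⟩
    intro x
    have := hf.1 x
    unfold kap
    split_ifs <;> omega
  rw [← Finset.sum_fiberwise_of_maps_to (hmaps (u + 1))]
  have e : b + (u + 1) - 1 = b + u := by omega
  have e' : u + 1 - 1 = u := by omega
  rw [e, e', ← Finset.sum_fiberwise_of_maps_to (hmaps u)]
  apply Finset.sum_le_sum
  intro F hF
  have l : ∑ f ∈ (HS β (b + (u + 1))).filter (fun f => (fun x => kap c (u + 1) (f x)) = F),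
      (((u + 1 : ℕ) : ℝ) / ((u + 1 : ℕ) + 1)) ^
        (univ.filter (fun x => kap c (u + 1) (f x) = c)).card * W (fun x => kap c (u + 1) (f x))
      = (((u + 1 : ℕ) : ℝ) / ((u + 1 : ℕ) + 1)) ^ Fintype.card {x : β // F x = c} * W F *
        ((HS {x : β // F x = c} (u + 1 + 1)).card : ℝ) := by
    rw [← card_fiber b c (u + 1) hc F hF]
    rw [Finset.sum_congr rfl (g := fun _ => (((u + 1 : ℕ) : ℝ) / ((u + 1 : ℕ) + 1)) ^
      Fintype.card {x : β // F x = c} * W F)]
    · rw [Finset.sum_const, nsmul_eq_mul]; ring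
    · intro f hf
      rw [mem_filter] at hf
      have h3 := hf.2
      rw [h3]
      congr 2
      rw [Fintype.card_subtype]
      congr 1
      ext x
      simp only [mem_filter, mem_univ, true_and]
      rw [← h3]
  have r : ∑ f ∈ (HS β (b + u)).filter (fun f => (fun x => kap c u (f x)) = F),
      W (fun x => kap c u (f x)) = W F * ((HS {x : β // F x = c} (u + 1)).card : ℝ) := by
    rw [← card_fiber b c u hc F hF]
    rw [Finset.sum_congr rfl (g := fun _ => W F)]
    · rw [Finset.sum_const, nsmul_eq_mul]; ring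
    · intro f hf
      rw [mem_filter] at hf
      rw [hf.2]
  rw [l, r]
  have h := step_small {x : β // F x = c} (u + 1) (by omega) hs3
  have hp : (0 : ℝ) < ((u + 1 : ℕ) : ℝ) := by positivity
  have h2 : (((u + 1 : ℕ) : ℝ) / ((u + 1 : ℕ) + 1)) ^ Fintype.card {x : β // F x = c} *
      ((HS {x : β // F x = c} (u + 1 + 1)).card : ℝ) ≤ ((HS {x : β // F x = c} (u + 1)).card : ℝ) := by
    calc _ ≤ (((u + 1 : ℕ) : ℝ) / ((u + 1 : ℕ) + 1)) ^ Fintype.card {x : β // F x = c} *
        (((((u + 1 : ℕ) : ℝ) + 1) / ((u + 1 : ℕ) : ℝ)) ^ Fintype.card {x : β // F x = c} *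
          ((HS {x : β // F x = c} (u + 1)).card : ℝ)) := by gcongr
      _ = ((((u + 1 : ℕ) : ℝ) / ((u + 1 : ℕ) + 1)) * ((((u + 1 : ℕ) : ℝ) + 1) / ((u + 1 : ℕ) : ℝ))) ^
          Fintype.card {x : β // F x = c} * ((HS {x : β // F x = c} (u + 1)).card : ℝ) := by
            rw [mul_pow]; ring
      _ = _ := by
        rw [show (((u + 1 : ℕ) : ℝ) / ((u + 1 : ℕ) + 1)) * ((((u + 1 : ℕ) : ℝ) + 1) /
          ((u + 1 : ℕ) : ℝ)) = 1 by field_simp]
        simp
  have h3 := mul_le_mul_of_nonneg_left h2 (hW F)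
  linarith

/-- comparison of the `(s+1)k`-element chain with the `sk`-element chain, `s ≤ 3` -/
theorem multiples (β : Type*) [Fintype β] [PartialOrder β] (s k : ℕ) (hs : 1 ≤ s) (hs3 : s ≤ 3) :
    ((HS β ((s + 1) * k)).card : ℝ) ≤
      (((s : ℝ) + 1) / s) ^ Fintype.card β * ((HS β (s * k)).card : ℝ) := by
  classical
  have hs0 : (0 : ℝ) < s := by exact_mod_cast hs
  set θ : ℝ := (s : ℝ) / (s + 1) with hθ
  have hθ0 : 0 < θ := by positivity
  -- after `j` windows have been shortened
  have key : ∀ j, j ≤ k → θ ^ Fintype.card β * ((HS β ((s + 1) * k)).card : ℝ) ≤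
      ∑ f ∈ HS β ((s + 1) * (k - j) + s * j),
        θ ^ (univ.filter (fun x => f x < (s + 1) * (k - j))).card := by
    intro j
    induction j with
    | zero =>
      intro _
      simp only [Nat.sub_zero, Nat.mul_zero, Nat.add_zero]
      rw [Finset.sum_congr rfl (g := fun _ => θ ^ Fintype.card β)]
      · rw [Finset.sum_const, nsmul_eq_mul]; linarith
      · intro f hf
        congr 1
        have := (mem_HS.mp hf).1
        rw [Finset.filter_true_of_mem (fun x _ => this x)]
        rfl
    | succ j ih =>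
      intro hj
      refine (ih (by omega)).trans ?_
      obtain ⟨r, hr⟩ : ∃ r, k - j = r + 1 := ⟨k - j - 1, by omega⟩
      have hr' : k - (j + 1) = r := by omega
      rw [hr, hr']
      set c := (s + 1) * r with hc
      set b := (s + 1) * r + 1 + s * j with hb
      have e1 : (s + 1) * (r + 1) + s * j = b + s := by rw [hb]; ring
      have e2 : (s + 1) * r + s * (j + 1) = b + s - 1 := by
        have : (s + 1) * r + s * (j + 1) + 1 = b + s := by rw [hb]; ring
        omega
      rw [e1, e2]
      have hw := window β b c s (by omega) hs hs3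
        (fun F => θ ^ (univ.filter (fun x => F x < c)).card) (fun F => by positivity)
      refine le_trans (le_of_eq ?_) (hw.trans (le_of_eq ?_))
      · apply Finset.sum_congr rfl
        intro f _
        rw [← pow_add]
        congr 1
        rw [← Finset.card_union_of_disjoint]
        · congr 1
          ext x
          simp only [mem_filter, mem_univ, true_and, mem_union]
          have e3 : (s + 1) * (r + 1) = c + (s + 1) := by rw [hc]; ring
          rw [e3]
          unfold kap
          split_ifs <;> omega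
        · rw [Finset.disjoint_filter]
          intro x _ h1 h2
          simp only at h2
          omega
      · apply Finset.sum_congr rfl
        intro f _
        congr 2
        ext x
        simp only [mem_filter, mem_univ, true_and]
        unfold kap
        split_ifs <;> omega
  have h := key k (le_refl k)
  simp only [Nat.sub_self, Nat.mul_zero, Nat.zero_add, Nat.not_lt_zero, Finset.filter_false,
    Finset.card_empty, pow_zero, Finset.sum_const, nsmul_eq_mul, mul_one] at h
  have e : ((s : ℝ) + 1) / s = θ⁻¹ := by rw [hθ, inv_div]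
  rw [e, inv_pow]
  have hθn : 0 < θ ^ Fintype.card β := by positivity
  rw [← div_eq_inv_mul, le_div_iff₀ hθn]
  linarith

/-- a bound for every `t ≥ 3` -/
theorem all_t (β : Type*) [Fintype β] [PartialOrder β] (t : ℕ) (ht : 3 ≤ t) :
    ((HS β (t + 1)).card : ℝ) ^ ((t + 1) / 4) ≤
      (4 / 3 : ℝ) ^ Fintype.card β * ((HS β t).card : ℝ) ^ ((t + 1) / 4) := by
  classical
  set r := (t + 1) / 4 with hr
  have hr1 : 1 ≤ r := by omega
  have hr0 : (0 : ℝ) < r := by exact_mod_cast hr1
  set n := Fintype.card β with hn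
  set L : ℝ := Real.log (4 / 3) with hL
  have hLpos : 0 < L := Real.log_pos (by norm_num)
  set A : ℝ := n / r with hA
  have e34 : (3 / 4 : ℝ) = Real.exp (-L) := by
    rw [hL, Real.exp_neg, Real.exp_log (by norm_num)]; norm_num
  have hwin : ∀ i ∈ range r, ∑ f ∈ HS β (t + 1),
      (3 / 4 : ℝ) ^ (univ.filter (fun x => kap (4 * i) 3 (f x) = 4 * i)).card
        ≤ ((HS β t).card : ℝ) := by
    intro i hi
    rw [mem_range] at hi
    have hw := window β (t - 2) (4 * i) 3 (by omega) (by norm_num) (le_refl 3) (fun _ => 1)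
      (fun _ => zero_le_one)
    have e1 : t - 2 + 3 = t + 1 := by omega
    have e2 : t + 1 - 1 = t := by omega
    rw [e1, e2] at hw
    simp only [mul_one, Finset.sum_const, nsmul_eq_mul] at hw
    have e3 : ((3 : ℕ) : ℝ) / ((3 : ℕ) + 1) = 3 / 4 := by norm_num
    rw [e3] at hw
    exact hw
  have hsum := Finset.sum_le_sum hwin
  rw [Finset.sum_comm, Finset.sum_const, card_range, nsmul_eq_mul] at hsum
  have hpt : ∀ f ∈ HS β (t + 1), (r : ℝ) * Real.exp (-(L * A)) ≤
      ∑ i ∈ range r, (3 / 4 : ℝ) ^ (univ.filter (fun x => kap (4 * i) 3 (f x) = 4 * i)).card := by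
    intro f _
    have hcount : ∑ i ∈ range r, (univ.filter (fun x => kap (4 * i) 3 (f x) = 4 * i)).card ≤ n := by
      rw [← Finset.card_biUnion]
      · exact Finset.card_le_univ _
      · intro i _ j _ hij
        rw [Function.onFun, Finset.disjoint_filter]
        intro x _ h1 h2
        unfold kap at h1 h2
        split_ifs at h1 h2 <;> omega
    have hcount' : ∑ i ∈ range r,
        ((univ.filter (fun x => kap (4 * i) 3 (f x) = 4 * i)).card : ℝ) ≤ n := by
      exact_mod_cast hcount
    have hterm : ∀ i ∈ range r, Real.exp (-(L * A)) * (1 - L *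
        (((univ.filter (fun x => kap (4 * i) 3 (f x) = 4 * i)).card : ℝ) - A)) ≤
        (3 / 4 : ℝ) ^ (univ.filter (fun x => kap (4 * i) 3 (f x) = 4 * i)).card := by
      intro i _
      rw [e34, ← Real.exp_nat_mul]
      set N : ℝ := ((univ.filter (fun x => kap (4 * i) 3 (f x) = 4 * i)).card : ℝ)
      have h1 := Real.add_one_le_exp (-(L * (N - A)))
      have h2 : Real.exp (N * -L) = Real.exp (-(L * A)) * Real.exp (-(L * (N - A))) := by
        rw [← Real.exp_add]; congr 1; ring
      rw [h2]
      have h3 : 0 < Real.exp (-(L * A)) := Real.exp_pos _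
      apply mul_le_mul_of_nonneg_left _ h3.le
      linarith
    refine le_trans ?_ (Finset.sum_le_sum hterm)
    rw [← Finset.mul_sum, mul_comm]
    apply mul_le_mul_of_nonneg_left _ (Real.exp_pos _).le
    rw [Finset.sum_sub_distrib, ← Finset.mul_sum, Finset.sum_sub_distrib, Finset.sum_const,
      Finset.sum_const, card_range, nsmul_eq_mul, nsmul_eq_mul, mul_one]
    have h4 : (r : ℝ) * A = n := by rw [hA]; field_simp
    rw [h4]
    nlinarith
  have hsum2 := Finset.sum_le_sum hpt
  rw [Finset.sum_const, nsmul_eq_mul] at hsum2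
  have h5 : ((HS β (t + 1)).card : ℝ) * Real.exp (-(L * A)) ≤ ((HS β t).card : ℝ) := by
    have := hsum2.trans hsum
    have h6 : (r : ℝ) * (((HS β (t + 1)).card : ℝ) * Real.exp (-(L * A))) ≤
        r * ((HS β t).card : ℝ) := by linarith
    exact le_of_mul_le_mul_left h6 hr0
  have h7 : ((HS β (t + 1)).card : ℝ) ≤ Real.exp (L * A) * ((HS β t).card : ℝ) := by
    rw [Real.exp_neg] at h5
    have h8 := Real.exp_pos (L * A)
    rw [← div_eq_mul_inv, div_le_iff₀ h8] at h5
    linarith
  calc ((HS β (t + 1)).card : ℝ) ^ r ≤ (Real.exp (L * A) * ((HS β t).card : ℝ)) ^ r := by gcongr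
    _ = Real.exp (L * A) ^ r * ((HS β t).card : ℝ) ^ r := by rw [mul_pow]
    _ = _ := by
      congr 1
      rw [← Real.exp_nat_mul, ← Real.exp_log (show (0 : ℝ) < 4 / 3 by norm_num),
        ← Real.exp_nat_mul]
      congr 1
      rw [← hL, hA]; field_simp

end Pool.Agent.KahnSaks
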